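import Mathlib

set_option autoImplicit false

/-! The bar model and its two obstructions. -/

namespace Pool.Agent.Lib.MP_73fdb2_co

open Set

variable {V : Type}

/-- The bars which block `u` from `v` at abscissa `x`. -/
def Blk (I : V → Set ℝ) (h : V → ℝ) (u v : V) (x : ℝ) : Set V :=
  {w | w ≠ u ∧ w ≠ v ∧ x ∈ I w ∧ h w ∈ uIcc (h u) (h v)}

/-- Adjacency in the bar model. -/
def BarAdj (k : ℕ) (I : V → Set ℝ) (h : V → ℝ) (u v : V) : Prop :=
  u ≠ v ∧ ∃ x, x ∈ I u ∧ x ∈ I v ∧ (Blk I h u v x).ncard ≤ k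

/-- Bars do not intersect. -/
def BarOK (I : V → Set ℝ) (h : V → ℝ) : Prop :=
  ∀ u v x, x ∈ I u → x ∈ I v → h u = h v → u = v

theorem Blk_comm (I : V → Set ℝ) (h : V → ℝ) (u v : V) (x : ℝ) :
    Blk I h u v x = Blk I h v u x := by
  ext w
  simp only [Blk, mem_ofPred_eq, uIcc_comm (h u) (h v)]
  tauto

theorem BarAdj.symm {k : ℕ} {I : V → Set ℝ} {h : V → ℝ} {u v : V} (H : BarAdj k I h u v) :
    BarAdj k I h v u := by
  obtain ⟨h1, x, h2, h3, h4⟩ := H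
  exact ⟨h1.symm, x, h3, h2, by rwa [Blk_comm]⟩

/-- The graph of a bar configuration. -/
def barGraph (k : ℕ) (I : V → Set ℝ) (h : V → ℝ) : SimpleGraph V where
  Adj := BarAdj k I h
  symm := ⟨fun _ _ H => H.symm⟩
  loopless := ⟨fun _ H => H.1 rfl⟩

theorem no_C4 {I0 I1 I2 I3 : Set ℝ} (c0 : I0.OrdConnected) (c1 : I1.OrdConnected)
    (c2 : I2.OrdConnected) (c3 : I3.OrdConnected) {a b c d : ℝ}
    (a0 : a ∈ I0) (a1 : a ∈ I1) (b1 : b ∈ I1) (b2 : b ∈ I2) (c2' : c ∈ I2) (c3' : c ∈ I3)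
    (d3 : d ∈ I3) (d0 : d ∈ I0) : (∃ x, x ∈ I0 ∧ x ∈ I2) ∨ (∃ x, x ∈ I1 ∧ x ∈ I3) := by
  by_contra hc
  push Not at hc
  obtain ⟨h02, h13⟩ := hc
  have e1 : ¬ (d ≤ b ∧ b ≤ a) := fun h => h02 b (c0.out d0 a0 h) b2
  have e2 : ¬ (b ≤ d ∧ d ≤ a) := fun h => h13 d (c1.out b1 a1 h) d3
  have e3 : ¬ (a ≤ c ∧ c ≤ b) := fun h => h13 c (c1.out a1 b1 h) c3'
  have e4 : ¬ (c ≤ a ∧ a ≤ b) := fun h => h02 a a0 (c2.out c2' b2 h)
  have e5 : ¬ (b ≤ d ∧ d ≤ c) := fun h => h02 d d0 (c2.out b2 c2' h)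
  have e6 : ¬ (d ≤ b ∧ b ≤ c) := fun h => h13 b b1 (c3.out d3 c3' h)
  have e7 : ¬ (c ≤ a ∧ a ≤ d) := fun h => h13 a a1 (c3.out c3' d3 h)
  have e8 : ¬ (a ≤ c ∧ c ≤ d) := fun h => h02 c (c0.out a0 d0 h) c2'
  rcases le_total a b with h1 | h1 <;> rcases le_total a c with h2 | h2 <;>
    rcases le_total a d with h3 | h3 <;> rcases le_total b c with h4 | h4 <;>
    rcases le_total b d with h5 | h5 <;> rcases le_total c d with h6 | h6 <;>
    first
      | exact e1 ⟨by assumption, by assumption⟩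
      | exact e2 ⟨by assumption, by assumption⟩
      | exact e3 ⟨by assumption, by assumption⟩
      | exact e4 ⟨by assumption, by assumption⟩
      | exact e5 ⟨by assumption, by assumption⟩
      | exact e6 ⟨by assumption, by assumption⟩
      | exact e7 ⟨by assumption, by assumption⟩
      | exact e8 ⟨by assumption, by assumption⟩

theorem all_block [Finite V] {k : ℕ} {I : V → Set ℝ} {h : V → ℝ} {z : V} (hz : I z = ∅)
    (hcard : Nat.card V ≤ k + 4) {u v : V} (huv : u ≠ v) {x : ℝ} (hu : x ∈ I u) (hv : x ∈ I v)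
    (hn : ¬ BarAdj k I h u v) (w : V) (hwz : w ≠ z) (hwu : w ≠ u) (hwv : w ≠ v) :
    x ∈ I w ∧ h w ∈ uIcc (h u) (h v) := by
  have h1 : k < (Blk I h u v x).ncard := by
    by_contra hc
    exact hn ⟨huv, x, hu, hv, not_lt.1 hc⟩
  have hzu : z ≠ u := by rintro rfl; rw [hz] at hu; exact hu
  have hzv : z ≠ v := by rintro rfl; rw [hz] at hv; exact hv
  have hsub : Blk I h u v x ⊆ ({u, v, z} : Set V)ᶜ := by
    rintro y ⟨y1, y2, y3, -⟩ (rfl | rfl | rfl)
    · exact y1 rfl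
    · exact y2 rfl
    · rw [hz] at y3; exact y3
  have h3 : ({u, v, z} : Set V).ncard = 3 :=
    ncard_eq_three.2 ⟨u, v, z, huv, hzu.symm, hzv.symm, rfl⟩
  have h4 := ncard_add_ncard_compl ({u, v, z} : Set V)
  have h5 : Blk I h u v x = ({u, v, z} : Set V)ᶜ :=
    eq_of_subset_of_ncard_le hsub (by omega)
  have : w ∈ Blk I h u v x := by
    rw [h5]
    rintro (rfl | rfl | rfl)
    · exact hwu rfl
    · exact hwv rfl
    · exact hwz rfl
  exact this.2.2

/-- First obstruction: few vertices and an induced four-cycle. -/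
theorem obstruction_C4 [Finite V] {k : ℕ} {I : V → Set ℝ} {h : V → ℝ} {z : V} (hz : I z = ∅)
    (hI : ∀ v, (I v).OrdConnected) (hok : BarOK I h) (hcard : Nat.card V ≤ k + 4)
    {v0 v1 v2 v3 : V} (h01 : BarAdj k I h v0 v1) (h12 : BarAdj k I h v1 v2)
    (h23 : BarAdj k I h v2 v3) (h30 : BarAdj k I h v3 v0) (n02 : v0 ≠ v2) (n13 : v1 ≠ v3)
    (h02 : ¬ BarAdj k I h v0 v2) (h13 : ¬ BarAdj k I h v1 v3) : False := by
  obtain ⟨n01, a, a0, a1, -⟩ := h01
  obtain ⟨n12, b, b1, b2, -⟩ := h12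
  obtain ⟨n23, c, c2, c3, -⟩ := h23
  obtain ⟨n30, d, d3, d0, -⟩ := h30
  have z0 : v0 ≠ z := by rintro rfl; rw [hz] at a0; exact a0
  have z1 : v1 ≠ z := by rintro rfl; rw [hz] at a1; exact a1
  have z2 : v2 ≠ z := by rintro rfl; rw [hz] at b2; exact b2
  have z3 : v3 ≠ z := by rintro rfl; rw [hz] at c3; exact c3
  have key : ∀ x, x ∈ I v0 → x ∈ I v1 → x ∈ I v2 → x ∈ I v3 → False := by
    intro x x0 x1 x2 x3
    have p1 := (all_block hz hcard n02 x0 x2 h02 v1 z1 n01.symm n12).2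
    have p3 := (all_block hz hcard n02 x0 x2 h02 v3 z3 n30 n23.symm).2
    have p0 := (all_block hz hcard n13 x1 x3 h13 v0 z0 n01 n30.symm).2
    have q1 : h v0 ≠ h v1 := fun e => n01 (hok _ _ x x0 x1 e)
    have q3 : h v3 ≠ h v0 := fun e => n30 (hok _ _ x x3 x0 e)
    rw [mem_uIcc] at p1 p3 p0
    rcases p1 with p1 | p1 <;> rcases p3 with p3 | p3 <;> rcases p0 with p0 | p0 <;>
      first
        | exact q1 (by linarith [p1.1, p1.2, p3.1, p3.2, p0.1, p0.2])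
        | exact q3 (by linarith [p1.1, p1.2, p3.1, p3.2, p0.1, p0.2])
  rcases no_C4 (hI v0) (hI v1) (hI v2) (hI v3) a0 a1 b1 b2 c2 c3 d3 d0 with
    ⟨x, x0, x2⟩ | ⟨x, x1, x3⟩
  · exact key x x0 (all_block hz hcard n02 x0 x2 h02 v1 z1 n01.symm n12).1 x2
      (all_block hz hcard n02 x0 x2 h02 v3 z3 n30 n23.symm).1
  · exact key x (all_block hz hcard n13 x1 x3 h13 v0 z0 n01 n30.symm).1 x1
      (all_block hz hcard n13 x1 x3 h13 v2 z2 n12.symm n23).1 x3

theorem see_few [Finite V] {k : ℕ} {I : V → Set ℝ} {h : V → ℝ} (hok : BarOK I h) {L : Set V}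
    {s : V} (hsub : ∀ l ∈ L, I s ⊆ I l) (hadj : ∀ l ∈ L, BarAdj k I h s l) :
    L.ncard ≤ 2 * k + 2 := by
  have hup : {l ∈ L | h s < h l}.ncard ≤ k + 1 := by
    rcases ({l ∈ L | h s < h l} : Set V).eq_empty_or_nonempty with he | hne
    · rw [he]; simp
    obtain ⟨m, hm, hmax⟩ := Set.exists_max_image _ h (toFinite _) hne
    obtain ⟨-, x, xs, -, hx⟩ := hadj m hm.1
    have : {l ∈ L | h s < h l} ⊆ insert m (Blk I h s m x) := by
      intro l hl
      by_cases hlm : l = m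
      · exact Or.inl hlm
      · exact Or.inr ⟨(hadj l hl.1).1.symm, hlm, hsub l hl.1 xs,
          mem_uIcc.2 (Or.inl ⟨hl.2.le, hmax l hl⟩)⟩
    exact (ncard_le_ncard this).trans ((ncard_insert_le _ _).trans (by omega))
  have hdown : {l ∈ L | h l < h s}.ncard ≤ k + 1 := by
    rcases ({l ∈ L | h l < h s} : Set V).eq_empty_or_nonempty with he | hne
    · rw [he]; simp
    obtain ⟨m, hm, hmin⟩ := Set.exists_min_image _ h (toFinite _) hne
    obtain ⟨-, x, xs, -, hx⟩ := hadj m hm.1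
    have : {l ∈ L | h l < h s} ⊆ insert m (Blk I h s m x) := by
      intro l hl
      by_cases hlm : l = m
      · exact Or.inl hlm
      · exact Or.inr ⟨(hadj l hl.1).1.symm, hlm, hsub l hl.1 xs,
          mem_uIcc.2 (Or.inr ⟨hmin l hl, hl.2.le⟩)⟩
    exact (ncard_le_ncard this).trans ((ncard_insert_le _ _).trans (by omega))
  have hL : L ⊆ {l ∈ L | h s < h l} ∪ {l ∈ L | h l < h s} := by
    intro l hl
    obtain ⟨hne, x, xs, xl, -⟩ := hadj l hl
    rcases lt_trichotomy (h s) (h l) with e | e | e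
    · exact Or.inl ⟨hl, e⟩
    · exact absurd (hok _ _ x xs xl e) hne
    · exact Or.inr ⟨hl, e⟩
  have := (ncard_le_ncard hL).trans (ncard_union_le _ _)
  omega

theorem next_above [Finite V] {k : ℕ} {I : V → Set ℝ} {h : V → ℝ} (hok : BarOK I h) {u v : V}
    {x : ℝ} (hu : x ∈ I u) (hv : x ∈ I v) (huv : h u < h v) :
    ∃ w, x ∈ I w ∧ h u < h w ∧ h w ≤ h v ∧ BarAdj k I h u w := by
  obtain ⟨w, hw, hmin⟩ := Set.exists_min_image {w | x ∈ I w ∧ h u < h w} h (toFinite _)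
    ⟨v, hv, huv⟩
  refine ⟨w, hw.1, hw.2, hmin v ⟨hv, huv⟩, fun e => ?_, x, hu, hw.1, ?_⟩
  · subst e; exact lt_irrefl _ hw.2
  · have : Blk I h u w x = ∅ := by
      rw [eq_empty_iff_forall_notMem]
      rintro y ⟨y1, y2, y3, y4⟩
      rw [uIcc_of_le hw.2.le] at y4
      have y5 : h u < h y := lt_of_le_of_ne y4.1 (fun e => y1 (hok _ _ x y3 hu e.symm))
      exact y2 (hok _ _ x y3 hw.1 (le_antisymm y4.2 (hmin y ⟨y3, y5⟩)))
    rw [this]; simp

/-- At one abscissa there are few bars of an independent set `S` when all others lie in `L`. -/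
theorem few_at [Finite V] {k : ℕ} {I : V → Set ℝ} {h : V → ℝ} (hok : BarOK I h) {L S : Set V}
    (hind : ∀ s ∈ S, ∀ t ∈ S, ¬ BarAdj k I h s t) {x : ℝ} (hcov : ∀ w, x ∈ I w → w ∈ S ∨ w ∈ L)
    {T : Set V} (hT : T ⊆ S) (hTx : ∀ s ∈ T, x ∈ I s) : T.ncard ≤ L.ncard + 1 := by
  rcases T.eq_empty_or_nonempty with rfl | hne
  · simp
  obtain ⟨m, hm, hmax⟩ := Set.exists_max_image T h (toFinite _) hne
  have key : ∀ s t, s ∈ T → t ∈ T → h s < h t → ∃ w ∈ L, x ∈ I w ∧ h s < h w ∧ h w ≤ h t := by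
    intro s t hs ht hst
    obtain ⟨w, w1, w2, w3, w4⟩ := next_above (k := k) hok (hTx s hs) (hTx t ht) hst
    rcases hcov w w1 with hw | hw
    · exact absurd w4 (hind s (hT hs) w hw)
    · exact ⟨w, hw, w1, w2, w3⟩
  have hex : ∀ s : V, ∃ w : V, s ∈ T \ {m} → w ∈ L ∧ h s < h w ∧
      ∀ y ∈ L, x ∈ I y → h s < h y → h w ≤ h y := by
    intro s
    by_cases hs : s ∈ T \ {m}
    · have hlt : h s < h m :=
        lt_of_le_of_ne (hmax s hs.1) (fun e => hs.2 (hok _ _ x (hTx s hs.1) (hTx m hm) e))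
      obtain ⟨w0, w1, w2, w3, -⟩ := key s m hs.1 hm hlt
      obtain ⟨w, hw, hmin⟩ := Set.exists_min_image {y | y ∈ L ∧ x ∈ I y ∧ h s < h y} h
        (toFinite _) ⟨w0, w1, w2, w3⟩
      exact ⟨w, fun _ => ⟨hw.1, hw.2.2, fun y y1 y2 y3 => hmin y ⟨y1, y2, y3⟩⟩⟩
    · exact ⟨s, fun h' => absurd h' hs⟩
  choose f hf using hex
  have hlt : ∀ s ∈ T \ {m}, ∀ t ∈ T \ {m}, h s < h t → f s ≠ f t := by
    intro s hs t ht hst e
    obtain ⟨w, w1, w2, w3, w4⟩ := key s t hs.1 ht.1 hst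
    have := (hf s hs).2.2 w w1 w2 w3
    have h2 := (hf t ht).2.1
    rw [e] at this
    linarith
  have hinj : InjOn f (T \ {m}) := by
    intro s hs t ht e
    rcases lt_trichotomy (h s) (h t) with c | c | c
    · exact absurd e (hlt s hs t ht c)
    · exact hok _ _ x (hTx s hs.1) (hTx t ht.1) c
    · exact absurd e.symm (hlt t ht s hs c)
  have h1 : (T \ {m}).ncard ≤ L.ncard :=
    ncard_le_ncard_of_injOn f (fun s hs => (hf s hs).1) hinj
  have h2 := ncard_sdiff_singleton_add_one hm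
  omega

/-- Second obstruction: a large independent set completely joined to many vertices. -/
theorem obstruction_bip [Finite V] {k : ℕ} {I : V → Set ℝ} {h : V → ℝ} {z : V} (hz : I z = ∅)
    (hI : ∀ v, (I v).OrdConnected) (hok : BarOK I h) {L S : Set V}
    (hcov : ∀ w, w ≠ z → w ∈ S ∨ w ∈ L) (hind : ∀ s ∈ S, ∀ t ∈ S, ¬ BarAdj k I h s t)
    (hadj : ∀ s ∈ S, ∀ l ∈ L, BarAdj k I h s l) (hL : 2 * k + 2 < L.ncard) :
    S.ncard ≤ L.ncard * (2 * (L.ncard + 1)) := by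
  classical
  have hcov' : ∀ x w, x ∈ I w → w ∈ S ∨ w ∈ L := by
    intro x w hw
    refine hcov w ?_
    rintro rfl
    rw [hz] at hw; exact hw
  let Up : V → Set V := fun l => {s ∈ S | ∃ b ∈ I s, ∀ y ∈ I l, y < b}
  let Dn : V → Set V := fun l => {s ∈ S | ∃ b ∈ I s, ∀ y ∈ I l, b < y}
  have hpt : ∀ l ∈ L, ∀ s : V, ∃ a : ℝ, s ∈ S → a ∈ I s ∧ a ∈ I l := by
    intro l hl s
    by_cases hs : s ∈ S
    · obtain ⟨-, x, xs, xl, -⟩ := hadj s hs l hl
      exact ⟨x, fun _ => ⟨xs, xl⟩⟩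
    · exact ⟨0, fun h' => absurd h' hs⟩
  have hUp : ∀ l ∈ L, (Up l).ncard ≤ L.ncard + 1 := by
    intro l hl
    choose a ha using hpt l hl
    rcases (Up l).eq_empty_or_nonempty with he | hne
    · rw [he]; simp
    obtain ⟨m, hm, hmax⟩ := Set.exists_max_image (Up l) a (toFinite _) hne
    refine few_at (k := k) hok hind (hcov' (a m)) (fun s hs => hs.1) ?_
    intro s hs
    obtain ⟨b, hb, hb2⟩ := hs.2
    exact (hI s).out (ha s hs.1).1 hb ⟨hmax s hs, (hb2 _ (ha m hm.1).2).le⟩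
  have hDn : ∀ l ∈ L, (Dn l).ncard ≤ L.ncard + 1 := by
    intro l hl
    choose a ha using hpt l hl
    rcases (Dn l).eq_empty_or_nonempty with he | hne
    · rw [he]; simp
    obtain ⟨m, hm, hmin⟩ := Set.exists_min_image (Dn l) a (toFinite _) hne
    refine few_at (k := k) hok hind (hcov' (a m)) (fun s hs => hs.1) ?_
    intro s hs
    obtain ⟨b, hb, hb2⟩ := hs.2
    exact (hI s).out hb (ha s hs.1).1 ⟨(hb2 _ (ha m hm.1).2).le, hmin s hs⟩
  have hS : S ⊆ ⋃ l ∈ (toFinite L).toFinset, (Up l ∪ Dn l) := by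
    intro s hs
    by_contra hc
    have hsub : ∀ l ∈ L, I s ⊆ I l := by
      intro l hl b hb
      by_contra hbl
      apply hc
      refine mem_iUnion₂.2 ⟨l, by simpa using hl, ?_⟩
      obtain ⟨-, x, xs, xl, -⟩ := hadj s hs l hl
      rcases le_total x b with hxb | hxb
      · refine Or.inl ⟨hs, b, hb, fun y hy => ?_⟩
        by_contra hy2
        exact hbl ((hI l).out xl hy ⟨hxb, not_lt.1 hy2⟩)
      · refine Or.inr ⟨hs, b, hb, fun y hy => ?_⟩
        by_contra hy2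
        exact hbl ((hI l).out hy xl ⟨not_lt.1 hy2, hxb⟩)
    have := see_few hok hsub (hadj s hs)
    omega
  refine (ncard_le_ncard hS).trans ?_
  refine (Finset.set_ncard_biUnion_le _ _).trans ?_
  have : ∀ l ∈ (toFinite L).toFinset, (Up l ∪ Dn l).ncard ≤ 2 * (L.ncard + 1) := by
    intro l hl
    have hl' : l ∈ L := by simpa using hl
    have := ncard_union_le (Up l) (Dn l)
    have h1 := hUp l hl'
    have h2 := hDn l hl'
    omega
  refine (Finset.sum_le_card_nsmul _ _ _ this).trans ?_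
  rw [smul_eq_mul, ← ncard_eq_toFinset_card L]

end Pool.Agent.Lib.MP_73fdb2_co
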