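import Mathlib

set_option autoImplicit false

/-! Arc `k`-visibility representations in the plane `ℂ`, with centre `O = 0`. -/

namespace Pool.Agent.Lib.MP_73fdb2_co

/-- A closed, nondegenerate circular arc centred at `0` which is not a full circle. -/
def IsClosedArc (A : Set ℂ) : Prop :=
  ∃ r a b : ℝ, 0 < r ∧ a < b ∧ b < a + 2 * Real.pi ∧ A = circleMap 0 r '' Set.Icc a b

/-- An arc in the widest sense: a nonempty connected subset of a circle centred at `0`
(closed, open or half open arcs, single points and full circles). -/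
def IsWideArc (A : Set ℂ) : Prop :=
  IsConnected A ∧ ∃ r : ℝ, 0 < r ∧ A ⊆ Metric.sphere 0 r

/-- The pairwise disjoint sets `A v` represent `G` as a `k`-visibility graph: distinct `u`, `v`
are adjacent iff some segment lying on a line through `0`, with one end on `A u` and the other
on `A v`, meets at most `k` further sets `A w`. -/
def Represents {V : Type} (k : ℕ) (G : SimpleGraph V) (A : V → Set ℂ) : Prop :=
  (∀ u v, u ≠ v → Disjoint (A u) (A v)) ∧
  ∀ u v, G.Adj u v ↔ u ≠ v ∧ ∃ p ∈ A u, ∃ q ∈ A v, Collinear ℝ {0, p, q} ∧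
    {w | w ≠ u ∧ w ≠ v ∧ (segment ℝ p q ∩ A w).Nonempty}.ncard ≤ k

end Pool.Agent.Lib.MP_73fdb2_co
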