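import Mathlib
import Pool.Agent.Lib.MP_73fdb2_co.Defs
import Pool.Agent.Lib.MP_73fdb2_co.Bars

set_option autoImplicit false

/-! Passing between arcs and bars. -/

namespace Pool.Agent.Lib.MP_73fdb2_co

open Set

variable {V : Type}

theorem collinear_iff_smul {p q : ℂ} (hp : p ≠ 0) :
    Collinear ℝ ({0, p, q} : Set ℂ) ↔ ∃ s : ℝ, q = s • p := by
  rw [collinear_iff_of_mem (p₀ := (0 : ℂ)) (by simp)]
  constructor
  · rintro ⟨v, hv⟩
    obtain ⟨r1, h1⟩ := hv p (by simp)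
    obtain ⟨r2, h2⟩ := hv q (by simp)
    simp only [vadd_eq_add, add_zero] at h1 h2
    have hr : r1 ≠ 0 := by
      rintro rfl
      exact hp (by simpa using h1)
    refine ⟨r2 / r1, ?_⟩
    rw [h1, h2, smul_smul, div_mul_cancel₀ _ hr]
  · rintro ⟨s, rfl⟩
    refine ⟨p, ?_⟩
    rintro y (rfl | rfl | rfl)
    · exact ⟨0, by simp⟩
    · exact ⟨1, by simp⟩
    · exact ⟨s, by simp⟩

theorem mem_segment_smul {d y : ℂ} {t t' : ℝ} :
    y ∈ segment ℝ (t • d) (t' • d) ↔ ∃ s ∈ uIcc t t', y = s • d := by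
  rw [← segment_eq_uIcc]
  constructor
  · rintro ⟨a, b, ha, hb, hab, rfl⟩
    exact ⟨a • t + b • t', ⟨a, b, ha, hb, hab, rfl⟩, by rw [add_smul, smul_assoc, smul_assoc]⟩
  · rintro ⟨_, ⟨a, b, ha, hb, hab, rfl⟩, rfl⟩
    exact ⟨a, b, ha, hb, hab, by rw [add_smul, smul_assoc, smul_assoc]⟩

theorem mem_uIcc_mul {s t t' c : ℝ} (hc : 0 < c) :
    s * c ∈ uIcc (t * c) (t' * c) ↔ s ∈ uIcc t t' := by
  simp only [mem_uIcc, mul_le_mul_iff_left₀ hc]

theorem isolated_line [Finite V] {k : ℕ} {G : SimpleGraph V} {A : V → Set ℂ}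
    (hA : ∀ v, IsWideArc (A v)) (hR : Represents k G A) {z : V} (hz : ∀ v, ¬ G.Adj z v)
    {p : ℂ} (hp : p ∈ A z) {u : V} (hu : u ≠ z) {s : ℝ} (hs : s • p ∈ A u) : False := by
  choose r hr hsph using fun v => (hA v).2
  have hn : ∀ v, ∀ q ∈ A v, ‖q‖ = r v := fun v q hq => by simpa using hsph v hq
  have hp0 : 0 < ‖p‖ := by rw [hn z p hp]; exact hr z
  let T : Set ℝ := {t | ∃ u, u ≠ z ∧ t • p ∈ A u}
  have hT : T.Finite := by
    refine ((finite_range (fun u => r u / ‖p‖)).union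
      (finite_range (fun u => -(r u / ‖p‖)))).subset ?_
    rintro t ⟨u, -, ht⟩
    have h1 := hn u _ ht
    rw [norm_smul, Real.norm_eq_abs] at h1
    have h2 : |t| = r u / ‖p‖ := by rw [← h1]; field_simp
    rcases abs_cases t with h3 | h3
    · exact Or.inl ⟨u, by simp only; linarith [h3.1]⟩
    · exact Or.inr ⟨u, by simp only; linarith [h3.1]⟩
  obtain ⟨t, ⟨w, hwz, hw⟩, hmin⟩ := Set.exists_min_image T (fun t => |t - 1|) hT ⟨s, u, hu, hs⟩
  refine hz w ((hR.2 z w).2 ⟨hwz.symm, p, hp, t • p, hw,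
    (collinear_iff_smul (norm_pos_iff.1 hp0)).2 ⟨t, rfl⟩, ?_⟩)
  have : {y | y ≠ z ∧ y ≠ w ∧ (segment ℝ p (t • p) ∩ A y).Nonempty} = ∅ := by
    rw [eq_empty_iff_forall_notMem]
    rintro y ⟨y1, y2, q, hq1, hq2⟩
    have hq1' : q ∈ segment ℝ ((1 : ℝ) • p) (t • p) := by rwa [one_smul]
    obtain ⟨c, hc, rfl⟩ := mem_segment_smul.1 hq1'
    have h1 := hmin c ⟨y, y1, hq2⟩
    have h2 : c = t := by
      rcases mem_uIcc.1 hc with h | h
      · rw [abs_of_nonneg (by linarith [h.1, h.2]), abs_of_nonneg (by linarith [h.1])] at h1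
        linarith [h.2]
      · rw [abs_of_nonpos (by linarith [h.1, h.2]), abs_of_nonpos (by linarith [h.2])] at h1
        linarith [h.1]
    subst h2
    exact Set.disjoint_left.1 (hR.1 y w y2) hq2 hw
  rw [this]; simp

theorem arcs_to_bars [Finite V] {k : ℕ} {G : SimpleGraph V} {A : V → Set ℂ}
    (hA : ∀ v, IsWideArc (A v)) (hR : Represents k G A) {z : V} (hz : ∀ v, ¬ G.Adj z v) :
    ∃ (I : V → Set ℝ) (h : V → ℝ), I z = ∅ ∧ (∀ v, (I v).OrdConnected) ∧ BarOK I h ∧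
      ∀ u v, G.Adj u v ↔ BarAdj k I h u v := by
  classical
  have hiso := fun (p : ℂ) (hp : p ∈ A z) (u : V) (hu : u ≠ z) (s : ℝ) (hs : s • p ∈ A u) =>
    isolated_line hA hR hz hp hu hs
  choose r hr hsph using fun v => (hA v).2
  have hn : ∀ v, ∀ q ∈ A v, ‖q‖ = r v := fun v q hq => by simpa using hsph v hq
  have hne : ∀ v, ∀ q ∈ A v, q ≠ 0 := fun v q hq => by
    rw [← norm_pos_iff, hn v q hq]; exact hr v
  obtain ⟨w0, hw0⟩ := (hA z).1.nonempty
  have hw : w0 ≠ 0 := hne z w0 hw0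
  let X : ℂ → ℝ := fun q => (q / w0).re
  let Y : ℂ → ℝ := fun q => (q / w0).im
  have hXc : Continuous X := by simp only [X]; fun_prop
  have hYc : Continuous Y := by simp only [Y]; fun_prop
  let d : ℝ → ℂ := fun x => w0 * ((x : ℂ) + Complex.I)
  have hdiv : ∀ t x : ℝ, (t • d x) / w0 = (t : ℂ) * ((x : ℂ) + Complex.I) := by
    intro t x
    simp only [d, Complex.real_smul]
    field_simp
  have hX : ∀ t x : ℝ, X (t • d x) = t * x := by
    intro t x; simp only [X, hdiv]; simp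
  have hY : ∀ t x : ℝ, Y (t • d x) = t := by
    intro t x; simp only [Y, hdiv]; simp
  have hd : ∀ x, 0 < ‖d x‖ := by
    intro x
    rw [norm_pos_iff]
    intro h0
    have := hY 1 x
    rw [h0] at this
    simp [Y] at this
  have hY0 : ∀ u, u ≠ z → ∀ q ∈ A u, Y q ≠ 0 := by
    intro u hu q hq h0
    refine hiso w0 hw0 u hu (X q) ?_
    have : X q • w0 = q := by
      have h1 : q / w0 = (X q : ℂ) := Complex.ext (by simp [X]) (by simpa [Y] using h0)
      rw [Complex.real_smul, ← h1]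
      field_simp
    rwa [this]
  have hrep : ∀ q : ℂ, Y q ≠ 0 → q = Y q • d (X q / Y q) := by
    intro q hq
    have h1 : q / w0 = (X q : ℂ) + (Y q : ℂ) * Complex.I := (Complex.re_add_im _).symm
    have h2 : (Y q : ℂ) ≠ 0 := by exact_mod_cast hq
    have h3 : q = w0 * (q / w0) := by field_simp
    simp only [d, Complex.real_smul]
    push_cast
    rw [show (Y q : ℂ) * (w0 * ((X q : ℂ) / (Y q : ℂ) + Complex.I)) =
      w0 * ((X q : ℂ) + (Y q : ℂ) * Complex.I) by field_simp, ← h1]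
    exact h3
  let I : V → Set ℝ := fun u => if u = z then ∅ else (fun q => X q / Y q) '' A u
  let h : V → ℝ := fun u => if ∃ q ∈ A u, 0 < Y q then r u else -r u
  have hIz : I z = ∅ := by simp [I]
  have hIu : ∀ u, u ≠ z → I u = (fun q => X q / Y q) '' A u := by
    intro u hu; simp [I, hu]
  have hh : ∀ u, u ≠ z → ∀ t x : ℝ, t • d x ∈ A u → t * ‖d x‖ = h u := by
    intro u hu t x ht
    have h1 := hn u _ ht
    rw [norm_smul, Real.norm_eq_abs] at h1
    have h2 : t ≠ 0 := by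
      have := hY0 u hu _ ht
      rwa [hY] at this
    rcases lt_or_gt_of_ne h2 with h3 | h3
    · have h4 : ¬ ∃ q ∈ A u, 0 < Y q := by
        rintro ⟨q, hq, hq2⟩
        have hoc := ((hA u).1.isPreconnected.image Y hYc.continuousOn).ordConnected
        obtain ⟨y, hy, hy0⟩ := hoc.out (x := t) ⟨_, ht, hY t x⟩ ⟨q, hq, rfl⟩ ⟨h3.le, hq2.le⟩
        exact hY0 u hu y hy hy0
      simp only [h, h4, if_false]
      rw [abs_of_neg h3] at h1
      linarith
    · have h4 : ∃ q ∈ A u, 0 < Y q := ⟨_, ht, by rwa [hY]⟩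
      simp only [h, h4, if_true]
      rwa [abs_of_pos h3] at h1
  have KL : ∀ u, u ≠ z → ∀ t x : ℝ, t • d x ∈ A u ↔ x ∈ I u ∧ t * ‖d x‖ = h u := by
    intro u hu t x
    constructor
    · intro ht
      refine ⟨?_, hh u hu t x ht⟩
      rw [hIu u hu]
      refine ⟨_, ht, ?_⟩
      have h2 : t ≠ 0 := by
        have := hY0 u hu _ ht
        rwa [hY] at this
      simp only [hX, hY]
      field_simp
    · rintro ⟨hx, ht⟩
      rw [hIu u hu] at hx
      obtain ⟨q, hq, rfl⟩ := hx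
      have h1 := hrep q (hY0 u hu q hq)
      have h2 := hh u hu (Y q) (X q / Y q) (by rw [← h1]; exact hq)
      have h3 : t = Y q := mul_right_cancel₀ (hd _).ne' (ht.trans h2.symm)
      rw [h3]
      simp only
      rw [← h1]
      exact hq
  have hIne : ∀ u x, x ∈ I u → u ≠ z := by
    rintro u x hx rfl
    rw [hIz] at hx; exact hx
  have hpt : ∀ u x, x ∈ I u → (h u / ‖d x‖) • d x ∈ A u := fun u x hx =>
    (KL u (hIne u x hx) _ x).2 ⟨hx, div_mul_cancel₀ _ (hd x).ne'⟩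
  have hblk : ∀ u v (x t t' : ℝ), u ≠ z → v ≠ z → t • d x ∈ A u → t' • d x ∈ A v →
      {w | w ≠ u ∧ w ≠ v ∧ (segment ℝ (t • d x) (t' • d x) ∩ A w).Nonempty} = Blk I h u v x := by
    intro u v x t t' hu hv ht ht'
    have e1 := hh u hu t x ht
    have e2 := hh v hv t' x ht'
    ext w
    simp only [Blk, mem_ofPred_eq]
    refine and_congr_right (fun _ => and_congr_right (fun _ => ?_))
    constructor
    · rintro ⟨q, hq1, hq2⟩
      obtain ⟨s, hs, rfl⟩ := mem_segment_smul.1 hq1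
      have hwz : w ≠ z := by
        rintro rfl
        have hs0 : s ≠ 0 := by
          rintro rfl
          exact hne _ _ hq2 (by simp)
        refine hiso _ hq2 u hu (t / s) ?_
        rwa [smul_smul, div_mul_cancel₀ _ hs0]
      obtain ⟨h1, h2⟩ := (KL w hwz s x).1 hq2
      refine ⟨h1, ?_⟩
      rw [← e1, ← e2, ← h2, mem_uIcc_mul (hd x)]
      exact hs
    · rintro ⟨h1, h2⟩
      refine ⟨_, mem_segment_smul.2 ⟨h w / ‖d x‖, ?_, rfl⟩, hpt w x h1⟩
      rw [← mem_uIcc_mul (hd x), e1, e2, div_mul_cancel₀ _ (hd x).ne']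
      exact h2
  refine ⟨I, h, hIz, ?_, ?_, ?_⟩
  · intro v
    by_cases hv : v = z
    · rw [hv, hIz]; exact ordConnected_empty
    · rw [hIu v hv]
      refine ((hA v).1.isPreconnected.image _ ?_).ordConnected
      exact hXc.continuousOn.div hYc.continuousOn (hY0 v hv)
  · intro u v x hu hv e
    by_contra hne'
    have h1 := hpt u x hu
    have h2 := hpt v x hv
    rw [e] at h1
    exact Set.disjoint_left.1 (hR.1 u v hne') h1 h2
  · intro u v
    constructor
    · intro hadj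
      have hu : u ≠ z := by rintro rfl; exact hz v hadj
      have hv : v ≠ z := by rintro rfl; exact hz u hadj.symm
      obtain ⟨huv, p, hp, q, hq, hcol, hc⟩ := (hR.2 u v).1 hadj
      obtain ⟨s, rfl⟩ := (collinear_iff_smul (hne u p hp)).1 hcol
      have h1 := hrep p (hY0 u hu p hp)
      generalize Y p = t at h1
      generalize X p / t = x at h1
      subst h1
      rw [smul_smul] at hq hc
      rw [hblk u v x _ _ hu hv hp hq] at hc
      exact ⟨huv, x, ((KL u hu _ x).1 hp).1, ((KL v hv _ x).1 hq).1, hc⟩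
    · rintro ⟨huv, x, hu, hv, hc⟩
      have h1 := hpt u x hu
      have h2 := hpt v x hv
      refine (hR.2 u v).2 ⟨huv, _, h1, _, h2, ?_, ?_⟩
      · have h0 : h u / ‖d x‖ ≠ 0 := by
          intro h0
          exact hne u _ h1 (by rw [h0]; simp)
        refine (collinear_iff_smul (hne u _ h1)).2 ⟨(h v / ‖d x‖) / (h u / ‖d x‖), ?_⟩
        rw [smul_smul, div_mul_cancel₀ _ h0]
      · rwa [hblk u v x _ _ (hIne u x hu) (hIne v x hv) h1 h2]

theorem ray_unique {t t' a b : ℝ} (ht : t' ≠ 0) (ha : a ∈ Icc (0 : ℝ) 3) (hb : b ∈ Icc (0 : ℝ) 3)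
    (h : t • Complex.exp (a * Complex.I) = t' • Complex.exp (b * Complex.I)) : a = b ∧ t = t' := by
  have h1 : (t : ℂ) = t' * Complex.exp (((b - a : ℝ) : ℂ) * Complex.I) := by
    have h2 : Complex.exp (((b - a : ℝ) : ℂ) * Complex.I) =
        Complex.exp (b * Complex.I) / Complex.exp (a * Complex.I) := by
      rw [← Complex.exp_sub]; congr 1; push_cast; ring
    rw [h2, ← mul_div_assoc, eq_div_iff (Complex.exp_ne_zero _)]
    simpa [Complex.real_smul] using h
  have h3 : t' * Real.sin (b - a) = 0 := by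
    have := congrArg Complex.im h1
    rw [Complex.ofReal_im, Complex.im_ofReal_mul, Complex.exp_ofReal_mul_I_im] at this
    exact this.symm
  have h4 : Real.sin (b - a) = 0 := (mul_eq_zero.1 h3).resolve_left ht
  have hpi := Real.pi_gt_three
  have h5 : b - a = 0 := (Real.sin_eq_zero_iff_of_lt_of_lt (by linarith [ha.2, hb.1])
    (by linarith [ha.1, hb.2])).1 h4
  have h6 : a = b := by linarith
  refine ⟨h6, ?_⟩
  rw [h5] at h1
  simpa using h1

theorem bars_to_arcs (k : ℕ) {l r h : V → ℝ} {R : ℝ} (hR : 0 < R) (hl : ∀ v, 0 ≤ l v)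
    (hlr : ∀ v, l v < r v) (hr : ∀ v, r v ≤ R) (hh : ∀ v, 0 < h v)
    (hok : BarOK (fun v => Icc (l v) (r v)) h) :
    ∃ A : V → Set ℂ, (∀ v, IsClosedArc (A v)) ∧
      Represents k (barGraph k (fun v => Icc (l v) (r v)) h) A := by
  let c : ℝ := 3 / R
  have hc : 0 < c := by positivity
  have hcR : c * R = 3 := by simp only [c]; field_simp
  let e : ℝ → ℂ := fun x => Complex.exp (((c * x : ℝ) : ℂ) * Complex.I)
  have he : ∀ x, e x ≠ 0 := fun x => Complex.exp_ne_zero _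
  let A : V → Set ℂ := fun v => circleMap 0 (h v) '' Icc (c * l v) (c * r v)
  have hin : ∀ v x, x ∈ Icc (l v) (r v) → c * x ∈ Icc (0 : ℝ) 3 := by
    intro v x hx
    exact ⟨mul_nonneg hc.le ((hl v).trans hx.1), by nlinarith [hx.2, hr v]⟩
  have hmem : ∀ v q, q ∈ A v ↔ ∃ x ∈ Icc (l v) (r v), q = h v • e x := by
    intro v q
    constructor
    · rintro ⟨θ, hθ, rfl⟩
      refine ⟨θ / c, ⟨by rw [le_div_iff₀ hc]; linarith [hθ.1], by rw [div_le_iff₀ hc]; linarith [hθ.2]⟩, ?_⟩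
      simp only [e, circleMap, zero_add, Complex.real_smul, mul_div_cancel₀ _ hc.ne']
    · rintro ⟨x, hx, rfl⟩
      refine ⟨c * x, ⟨by nlinarith [hx.1], by nlinarith [hx.2]⟩, ?_⟩
      simp only [e, circleMap, zero_add, Complex.real_smul]
  have KL : ∀ u v x (t : ℝ), x ∈ Icc (l u) (r u) →
      (t • e x ∈ A v ↔ x ∈ Icc (l v) (r v) ∧ t = h v) := by
    intro u v x t hx
    rw [hmem]
    constructor
    · rintro ⟨y, hy, hxy⟩
      obtain ⟨h1, h2⟩ := ray_unique (hh v).ne' (hin u x hx) (hin v y hy) hxy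
      have : x = y := mul_left_cancel₀ hc.ne' h1
      exact ⟨this ▸ hy, h2⟩
    · rintro ⟨h1, rfl⟩
      exact ⟨x, h1, rfl⟩
  have hblk : ∀ u v x, x ∈ Icc (l u) (r u) →
      {w | w ≠ u ∧ w ≠ v ∧ (segment ℝ (h u • e x) (h v • e x) ∩ A w).Nonempty} =
        Blk (fun v => Icc (l v) (r v)) h u v x := by
    intro u v x hx
    ext w
    simp only [Blk, mem_ofPred_eq]
    refine and_congr_right (fun _ => and_congr_right (fun _ => ?_))
    constructor
    · rintro ⟨q, hq1, hq2⟩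
      obtain ⟨s, hs, rfl⟩ := mem_segment_smul.1 hq1
      obtain ⟨h1, rfl⟩ := (KL u w x s hx).1 hq2
      exact ⟨h1, hs⟩
    · rintro ⟨h1, h2⟩
      exact ⟨_, mem_segment_smul.2 ⟨h w, h2, rfl⟩, (hmem w _).2 ⟨x, h1, rfl⟩⟩
  refine ⟨A, fun v => ⟨h v, c * l v, c * r v, hh v, by nlinarith [hlr v], ?_, rfl⟩, ?_, ?_⟩
  · have h1 := hin v (l v) ⟨le_rfl, (hlr v).le⟩
    have h2 := hin v (r v) ⟨(hlr v).le, le_rfl⟩
    linarith [h1.1, h2.2, Real.pi_gt_three]
  · intro u v huv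
    rw [Set.disjoint_left]
    intro q hu hv
    obtain ⟨x, hx, rfl⟩ := (hmem u q).1 hu
    obtain ⟨h1, h2⟩ := (KL u v x _ hx).1 hv
    exact huv (hok u v x hx h1 h2)
  · intro u v
    constructor
    · rintro ⟨huv, x, hu, hv, hcnt⟩
      refine ⟨huv, _, (hmem u _).2 ⟨x, hu, rfl⟩, _, (hmem v _).2 ⟨x, hv, rfl⟩, ?_, ?_⟩
      · refine (collinear_iff_smul (smul_ne_zero (hh u).ne' (he x))).2 ⟨h v / h u, ?_⟩
        rw [smul_smul, div_mul_cancel₀ _ (hh u).ne']
      · rwa [hblk u v x hu]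
    · rintro ⟨huv, p, hp, q, hq, hcol, hcnt⟩
      obtain ⟨x, hx, rfl⟩ := (hmem u p).1 hp
      obtain ⟨s, rfl⟩ := (collinear_iff_smul (smul_ne_zero (hh u).ne' (he x))).1 hcol
      rw [smul_smul] at hq hcnt
      obtain ⟨h1, h2⟩ := (KL u v x _ hx).1 hq
      rw [h2, hblk u v x hx] at hcnt
      exact ⟨huv, x, hx, h1, hcnt⟩

end Pool.Agent.Lib.MP_73fdb2_co
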