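import Mathlib
import Pool.Agent.Lib.MP_73fdb2_co.Geom

set_option autoImplicit false

/-! The two families of witnesses. -/

namespace Pool.Agent.Lib.MP_73fdb2_co

open Set

theorem case_lt {a b : ℕ} (hab : a < b) : ∃ (V : Type) (_ : Finite V) (G : SimpleGraph V),
    (∃ A : V → Set ℂ, (∀ v, IsClosedArc (A v)) ∧ Represents a G A) ∧
    ¬ ∃ A : V → Set ℂ, (∀ v, IsWideArc (A v)) ∧ Represents b G A := by
  let V := Fin (a + 5)
  let l : V → ℝ := fun m => if m.1 = a + 4 then 4 else 0
  let r : V → ℝ := fun m => if m.1 = a + 4 then 5 else if m.1 = 0 ∨ m.1 = a + 3 then 3 else 1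
  let h : V → ℝ := fun m => (m.1 : ℝ) + 1
  have hinj : ∀ u v : V, h u = h v → u = v := by
    intro u v e
    have : (u.1 : ℝ) = v.1 := by simpa [h] using e
    exact Fin.ext (by exact_mod_cast this)
  have hok : BarOK (fun v => Icc (l v) (r v)) h := fun u v _ _ _ e => hinj u v e
  have hl0 : ∀ v, 0 ≤ l v := by intro v; simp only [l]; split_ifs <;> norm_num
  have hr3 : ∀ v : V, v.1 ≠ a + 4 → l v = 0 ∧ 1 ≤ r v ∧ r v ≤ 3 := by
    intro v hv; simp only [l, r, hv, if_false]; split_ifs <;> norm_num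
  have hr1 : ∀ v : V, v.1 ≠ a + 4 → v.1 ≠ 0 → v.1 ≠ a + 3 → r v = 1 := by
    intro v hv h0 h3; simp only [r, hv, h0, h3, if_false, or_self]
  refine ⟨V, inferInstance, barGraph a (fun v => Icc (l v) (r v)) h,
    bars_to_arcs a (R := 5) (by norm_num) hl0 ?_ ?_ ?_ hok, ?_⟩
  · intro v; simp only [l, r]; split_ifs <;> norm_num
  · intro v; simp only [r]; split_ifs <;> norm_num
  · intro v; simp only [h]; positivity
  rintro ⟨A, hA, hR⟩
  let z : V := ⟨a + 4, by omega⟩
  have hz : ∀ v, ¬ (barGraph a (fun v => Icc (l v) (r v)) h).Adj z v := by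
    rintro v ⟨hne, x, h1, h2, -⟩
    have hv : v.1 ≠ a + 4 := fun e => hne (Fin.ext e.symm)
    have h3 : (4 : ℝ) ≤ x := by simpa [l, z] using h1.1
    linarith [h2.2, (hr3 v hv).2.2]
  obtain ⟨I', h', hIz, hI, hok', hadj⟩ := arcs_to_bars hA hR hz
  have hbetween : ∀ (u v w : V) (x : ℝ), u.1 < v.1 →
      w ∈ Blk (fun v => Icc (l v) (r v)) h u v x → u.1 < w.1 ∧ w.1 < v.1 := by
    rintro u v w x huv ⟨w1, w2, -, w4⟩
    have : (u.1 : ℝ) < v.1 := by exact_mod_cast huv
    rw [uIcc_of_le (by simp only [h]; linarith)] at w4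
    have e1 : (u.1 : ℝ) ≤ w.1 := by simpa [h] using w4.1
    have e2 : (w.1 : ℝ) ≤ v.1 := by simpa [h] using w4.2
    have e3 : u.1 ≤ w.1 := by exact_mod_cast e1
    have e4 : w.1 ≤ v.1 := by exact_mod_cast e2
    have e5 : w.1 ≠ u.1 := fun e => w1 (Fin.ext e)
    have e6 : w.1 ≠ v.1 := fun e => w2 (Fin.ext e)
    omega
  have near : ∀ u v : V, u.1 < v.1 → v.1 ≤ u.1 + a + 1 → v.1 < a + 4 →
      BarAdj a (fun v => Icc (l v) (r v)) h u v := by
    intro u v h1 h2 h3
    obtain ⟨u1, u2, -⟩ := hr3 u (by omega)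
    obtain ⟨v1, v2, -⟩ := hr3 v (by omega)
    refine ⟨fun e => by rw [e] at h1; omega, 0, ⟨u1.le, by linarith⟩, ⟨v1.le, by linarith⟩, ?_⟩
    have : (Blk (fun v => Icc (l v) (r v)) h u v 0).ncard ≤ (Finset.Ioo u.1 v.1 : Set ℕ).ncard :=
      ncard_le_ncard_of_injOn (fun w => w.1)
        (fun w hw => by simpa using hbetween u v w 0 h1 hw) (Fin.val_injective.injOn)
    rw [ncard_coe_finset, Nat.card_Ioo] at this
    omega
  have far : ∀ u v : V, v.1 = u.1 + a + 2 → v.1 < a + 4 →
      ¬ BarAdj a (fun v => Icc (l v) (r v)) h u v := by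
    rintro u v h1 h3 ⟨-, x, hu, hv, hc⟩
    have hx0 : 0 ≤ x := (hl0 u).trans hu.1
    have hx1 : x ≤ 1 := by
      by_cases h0 : u.1 = 0
      · have := hr1 v (by omega) (by omega) (by omega)
        linarith [hv.2]
      · have := hr1 u (by omega) h0 (by omega)
        linarith [hu.2]
    have hsub : (Finset.Ioo u.1 v.1 : Set ℕ) ⊆
        (fun w : V => w.1) '' Blk (fun v => Icc (l v) (r v)) h u v x := by
      intro m hm
      have hm' : u.1 < m ∧ m < v.1 := by simpa using hm
      obtain ⟨w1, w2, -⟩ := hr3 ⟨m, by omega⟩ (by simp only; omega)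
      refine ⟨⟨m, by omega⟩, ⟨fun e => ?_, fun e => ?_, ⟨by linarith, by linarith⟩, ?_⟩, rfl⟩
      · have := congrArg Fin.val e
        simp only at this; omega
      · have := congrArg Fin.val e
        simp only at this; omega
      · have e1 : (u.1 : ℝ) < m := by exact_mod_cast hm'.1
        have e2 : (m : ℝ) < v.1 := by exact_mod_cast hm'.2
        exact mem_uIcc.2 (Or.inl ⟨by simp only [h]; linarith, by simp only [h]; linarith⟩)
    have h4 := (ncard_le_ncard hsub).trans (ncard_image_le (toFinite _))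
    rw [ncard_coe_finset, Nat.card_Ioo] at h4
    omega
  let v0 : V := ⟨0, by omega⟩
  let v1 : V := ⟨1, by omega⟩
  let v2 : V := ⟨a + 2, by omega⟩
  let v3 : V := ⟨a + 3, by omega⟩
  have long : BarAdj a (fun v => Icc (l v) (r v)) h v0 v3 := by
    refine ⟨fun e => by have := congrArg Fin.val e; simp [v0, v3] at this, 2,
      by simp [l, r, v0]; norm_num, by simp [l, r, v3]; norm_num, ?_⟩
    have : Blk (fun v => Icc (l v) (r v)) h v0 v3 2 = ∅ := by
      rw [eq_empty_iff_forall_notMem]
      intro w hw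
      obtain ⟨e1, e2⟩ := hbetween v0 v3 w 2 (by simp [v0, v3]) hw
      simp only [v0, v3] at e1 e2
      have := hr1 w (by omega) (by omega) (by omega)
      linarith [hw.2.2.1.2]
    rw [this]; simp
  refine obstruction_C4 (v0 := v0) (v1 := v1) (v2 := v2) (v3 := v3) hIz hI hok'
    (by simp only [V, Nat.card_eq_fintype_card, Fintype.card_fin]; omega)
    ((hadj _ _).1 (near v0 v1 (by simp [v0, v1]) (by simp [v0, v1]) (by simp [v1])))
    ((hadj _ _).1 (near v1 v2 (by simp [v1, v2]) (by simp only [v1, v2]; omega) (by simp [v2])))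
    ((hadj _ _).1 (near v2 v3 (by simp [v2, v3]) (by simp only [v2, v3]; omega) (by simp [v3])))
    ((hadj _ _).1 long.symm)
    (fun e => by have := congrArg Fin.val e; simp [v0, v2] at this)
    (fun e => by have := congrArg Fin.val e; simp [v1, v3] at this)
    (fun e => far v0 v2 (by simp [v0, v2]) (by simp [v2]) ((hadj _ _).2 e))
    (fun e => far v1 v3 (by simp only [v1, v3]; omega) (by simp [v3]) ((hadj _ _).2 e))

theorem case_gt {a b : ℕ} (hab : b < a) : ∃ (V : Type) (_ : Finite V) (G : SimpleGraph V),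
    (∃ A : V → Set ℂ, (∀ v, IsClosedArc (A v)) ∧ Represents a G A) ∧
    ¬ ∃ A : V → Set ℂ, (∀ v, IsWideArc (A v)) ∧ Represents b G A := by
  obtain ⟨N, hN⟩ : ∃ N : ℕ, N = (2 * a + 2) * (2 * (2 * a + 2 + 1)) + 1 := ⟨_, rfl⟩
  let V := Option (Fin N ⊕ (Bool × Fin (a + 1)))
  let l : V → ℝ := fun v => v.elim (2 * N + 1) (Sum.elim (fun s => 2 * (s.1 : ℝ)) (fun _ => 0))
  let r : V → ℝ := fun v =>
    v.elim (2 * N + 2) (Sum.elim (fun s => 2 * (s.1 : ℝ) + 1) (fun _ => 2 * N))
  let h : V → ℝ := fun v => v.elim 1 (Sum.elim (fun _ => (a : ℝ) + 2)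
    (fun p => if p.1 then (a : ℝ) + 3 + p.2.1 else (p.2.1 : ℝ) + 1))
  have hN0 : (0 : ℝ) < N := by
    have : 0 < N := by omega
    exact_mod_cast this
  have hs : ∀ s : Fin N, (s.1 : ℝ) + 1 ≤ N := fun s => by exact_mod_cast s.2
  have hm : ∀ m : Fin (a + 1), (m.1 : ℝ) ≤ a := fun m => by exact_mod_cast Nat.lt_succ_iff.1 m.2
  have hm0 : ∀ m : Fin (a + 1), (0 : ℝ) ≤ m.1 := fun m => Nat.cast_nonneg _
  have hr2 : ∀ v : V, v ≠ none → r v ≤ 2 * N := by
    rintro (_ | s | p) hv
    · exact absurd rfl hv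
    · simp only [r, Option.elim, Sum.elim_inl]; linarith [hs s]
    · simp [r]
  have hdisj : ∀ (s t : Fin N) (x : ℝ), x ∈ Icc (l (some (Sum.inl s))) (r (some (Sum.inl s))) →
      x ∈ Icc (l (some (Sum.inl t))) (r (some (Sum.inl t))) → s = t := by
    intro s t x h1 h2
    simp only [l, r, Option.elim, Sum.elim_inl, mem_Icc] at h1 h2
    have e1 : ((2 * s.1 : ℕ) : ℝ) ≤ (2 * t.1 + 1 : ℕ) := by push_cast; linarith [h1.1, h2.2]
    have e2 : ((2 * t.1 : ℕ) : ℝ) ≤ (2 * s.1 + 1 : ℕ) := by push_cast; linarith [h1.2, h2.1]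
    have e3 := Nat.cast_le.1 e1
    have e4 := Nat.cast_le.1 e2
    exact Fin.ext (by omega)
  have hznone : ∀ (v : V) (x : ℝ), x ∈ Icc (l none) (r none) → x ∈ Icc (l v) (r v) → v = none := by
    intro v x h1 h2
    by_contra hv
    have := hr2 v hv
    have h3 : 2 * (N : ℝ) + 1 ≤ x := h1.1
    linarith [h2.2]
  have hside : ∀ p : Bool × Fin (a + 1), (p.1 = true → (a : ℝ) + 2 < h (some (Sum.inr p))) ∧
      (p.1 = false → h (some (Sum.inr p)) < (a : ℝ) + 2) := by
    rintro ⟨β, m⟩
    constructor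
    · rintro rfl
      simp only [h, Option.elim, Sum.elim_inr, if_true]; linarith [hm0 m]
    · rintro rfl
      simp only [h, Option.elim, Sum.elim_inr]; simp; linarith [hm m]
  have hok : BarOK (fun v => Icc (l v) (r v)) h := by
    rintro (_ | s | ⟨β, m⟩) v x h1 h2 e
    · exact (hznone v x h1 h2).symm
    · rcases v with _ | t | ⟨γ, n⟩
      · exact hznone _ x h2 h1
      · rw [hdisj s t x h1 h2]
      · exfalso
        have e' : (a : ℝ) + 2 = h (some (Sum.inr (γ, n))) := e
        cases γ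
        · linarith [(hside (false, n)).2 rfl]
        · linarith [(hside (true, n)).1 rfl]
    · rcases v with _ | t | ⟨γ, n⟩
      · exact hznone _ x h2 h1
      · exfalso
        have e' : h (some (Sum.inr (β, m))) = (a : ℝ) + 2 := e
        cases β
        · linarith [(hside (false, m)).2 rfl]
        · linarith [(hside (true, m)).1 rfl]
      · cases β <;> cases γ
        · have : (m.1 : ℝ) = n.1 := by simpa [h] using e
          rw [Fin.ext (Nat.cast_injective this)]
        · linarith [(hside (false, m)).2 rfl, (hside (true, n)).1 rfl]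
        · linarith [(hside (true, m)).1 rfl, (hside (false, n)).2 rfl]
        · have : (m.1 : ℝ) = n.1 := by simpa [h] using e
          rw [Fin.ext (Nat.cast_injective this)]
  refine ⟨V, inferInstance, barGraph a (fun v => Icc (l v) (r v)) h,
    bars_to_arcs a (R := 2 * N + 2) (by positivity) ?_ ?_ ?_ ?_ hok, ?_⟩
  · rintro (_ | s | p)
    · simp only [l, Option.elim]; positivity
    · simp only [l, Option.elim, Sum.elim_inl]; positivity
    · simp [l]
  · rintro (_ | s | p)
    · simp only [l, r, Option.elim]; linarith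
    · simp only [l, r, Option.elim, Sum.elim_inl]; linarith
    · simp only [l, r, Option.elim, Sum.elim_inr]; linarith
  · intro v
    by_cases hv : v = none
    · subst hv; simp [r]
    · linarith [hr2 v hv]
  · rintro (_ | s | ⟨β, m⟩)
    · simp [h]
    · simp only [h, Option.elim, Sum.elim_inl]; positivity
    · simp only [h, Option.elim, Sum.elim_inr]; split_ifs <;> positivity
  rintro ⟨A, hA, hR⟩
  have hz : ∀ v, ¬ (barGraph a (fun v => Icc (l v) (r v)) h).Adj none v := by
    rintro v ⟨hne, x, h1, h2, -⟩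
    exact hne (hznone v x h1 h2).symm
  obtain ⟨I', h', hIz, hI, hok', hadj⟩ := arcs_to_bars hA hR hz
  let L : Set V := range (fun p => some (Sum.inr p))
  let S : Set V := range (fun s => some (Sum.inl s))
  have hL : L.ncard = 2 * a + 2 := by
    rw [ncard_range_of_injective (fun p q e => Sum.inr_injective (Option.some_injective _ e))]
    simp; ring
  have hS : S.ncard = N := by
    rw [ncard_range_of_injective (fun p q e => Sum.inl_injective (Option.some_injective _ e))]
    simp
  have key := obstruction_bip (k := b) (L := L) (S := S) hIz hI hok' ?_ ?_ ?_ (by omega)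
  · rw [hL, hS] at key
    omega
  · rintro (_ | s | p) hw
    · exact absurd rfl hw
    · exact Or.inl ⟨s, rfl⟩
    · exact Or.inr ⟨p, rfl⟩
  · rintro _ ⟨s, rfl⟩ _ ⟨t, rfl⟩ e
    obtain ⟨hne, x, h1, h2, -⟩ := (hadj _ _).2 e
    exact hne (by rw [hdisj s t x h1 h2])
  · rintro _ ⟨s, rfl⟩ _ ⟨⟨β, m⟩, rfl⟩
    refine (hadj _ _).1 ⟨fun e => Sum.inl_ne_inr (Option.some_injective _ e), 2 * s.1, ?_, ?_, ?_⟩
    · simp [l, r]
    · simp only [l, r, Option.elim, Sum.elim_inr]
      exact ⟨by positivity, by linarith [hs s]⟩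
    · have hsub : Blk (fun v => Icc (l v) (r v)) h (some (Sum.inl s)) (some (Sum.inr (β, m)))
          (2 * s.1) ⊆ (fun n => some (Sum.inr (β, n))) '' ({m}ᶜ : Set (Fin (a + 1))) := by
        rintro (_ | t | ⟨γ, n⟩) ⟨w1, w2, w3, w4⟩
        · exfalso
          have h3 : 2 * (N : ℝ) + 1 ≤ 2 * s.1 := w3.1
          linarith [hs s]
        · exfalso
          exact w1 (by rw [hdisj t s _ w3 (by simp [l, r])])
        · have hβ : γ = β := by
            have e0 : h (some (Sum.inl s)) = (a : ℝ) + 2 := rfl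
            rw [e0, mem_uIcc] at w4
            cases β <;> cases γ
            · rfl
            · exfalso
              have := (hside (false, m)).2 rfl
              have := (hside (true, n)).1 rfl
              rcases w4 with w4 | w4 <;> linarith [w4.1, w4.2]
            · exfalso
              have := (hside (true, m)).1 rfl
              have := (hside (false, n)).2 rfl
              rcases w4 with w4 | w4 <;> linarith [w4.1, w4.2]
            · rfl
          subst hβ
          exact ⟨n, fun e => w2 (by rw [mem_singleton_iff.1 e]), rfl⟩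
      refine (ncard_le_ncard hsub).trans ((ncard_image_le (toFinite _)).trans ?_)
      have := ncard_add_ncard_compl ({m} : Set (Fin (a + 1)))
      rw [ncard_singleton, Nat.card_eq_fintype_card, Fintype.card_fin] at this
      omega

end Pool.Agent.Lib.MP_73fdb2_co
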