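import Mathlib
import Pool.Agent.Lib.MP_73fdb2_co.Geom

set_option autoImplicit false

/-! Arguments on the lines through the centre, without cutting the picture into bars. -/

namespace Pool.Agent.Lib.MP_73fdb2_co

open Set

variable {V : Type}

theorem collinear_smul (d : ℂ) (a c : ℝ) : Collinear ℝ ({0, a • d, c • d} : Set ℂ) := by
  rw [collinear_iff_of_mem (p₀ := (0 : ℂ)) (by simp)]
  refine ⟨d, ?_⟩
  rintro y (rfl | rfl | rfl)
  · exact ⟨0, by simp⟩
  · exact ⟨a, by simp⟩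
  · exact ⟨c, by simp⟩

/-- The parameters at which a line through the centre meets one arc. -/
theorem params_sub {B : Set ℂ} {r : ℝ} (hB : B ⊆ Metric.sphere 0 r) {d : ℂ} (hd : d ≠ 0) :
    {t : ℝ | t • d ∈ B} ⊆ {r / ‖d‖, -(r / ‖d‖)} := by
  intro t ht
  have hd0 : 0 < ‖d‖ := norm_pos_iff.2 hd
  have h1 : ‖t • d‖ = r := by simpa using hB ht
  rw [norm_smul, Real.norm_eq_abs] at h1
  have h2 : |t| = r / ‖d‖ := by rw [← h1]; field_simp
  rcases abs_cases t with h3 | h3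
  · exact Or.inl (by linarith [h3.1])
  · exact Or.inr (by simp only [mem_singleton_iff]; linarith [h3.1])

/-- Walking along a line from the arc `z` towards an arc outside a small set `X`, the first arc
outside `X` which is met is a neighbour of `z`. -/
theorem nearest [Finite V] {k : ℕ} {G : SimpleGraph V} {A : V → Set ℂ}
    (hA : ∀ v, IsWideArc (A v)) (hR : Represents k G A) {X : Set V} (hX : X.ncard ≤ k)
    {d : ℂ} (hd : d ≠ 0) {z u : V} {a b : ℝ} (ha : a • d ∈ A z) (hb : b • d ∈ A u)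
    (huz : u ≠ z) (huX : u ∉ X) :
    ∃ w c, c ∈ uIcc a b ∧ c • d ∈ A w ∧ w ∉ X ∧ G.Adj z w := by
  choose r hr hsph using fun v => (hA v).2
  let T : Set ℝ := {t | t ∈ uIcc a b ∧ ∃ u, u ≠ z ∧ u ∉ X ∧ t • d ∈ A u}
  have hT : T.Finite := by
    refine (finite_iUnion (fun u => (toFinite ({r u / ‖d‖, -(r u / ‖d‖)} : Set ℝ)))).subset ?_
    rintro t ⟨-, u, -, -, ht⟩
    exact mem_iUnion.2 ⟨u, params_sub (hsph u) hd ht⟩
  obtain ⟨t, ⟨ht, w, hwz, hwX, hw⟩, hmin⟩ := Set.exists_min_image T (fun t => |t - a|) hT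
    ⟨b, right_mem_uIcc, u, huz, huX, hb⟩
  refine ⟨w, t, ht, hw, hwX, (hR.2 z w).2 ⟨hwz.symm, _, ha, _, hw, collinear_smul d a t, ?_⟩⟩
  refine (ncard_le_ncard ?_).trans hX
  rintro y ⟨y1, y2, q, hq1, hq2⟩
  by_contra hyX
  obtain ⟨c, hc, rfl⟩ := mem_segment_smul.1 hq1
  have h1 := hmin c ⟨uIcc_subset_uIcc_left ht hc, y, y1, hyX, hq2⟩
  have h2 : c = t := by
    rcases mem_uIcc.1 hc with h | h
    · rw [abs_of_nonneg (by linarith [h.1, h.2]), abs_of_nonneg (by linarith [h.1])] at h1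
      linarith [h.2]
    · rw [abs_of_nonpos (by linarith [h.1, h.2]), abs_of_nonpos (by linarith [h.2])] at h1
      linarith [h.1]
  subst h2
  exact Set.disjoint_left.1 (hR.1 y w y2) hq2 hw

/-- For `k ≥ 1` the middle vertex `y` of a pendant path `z - y - w` blocks nothing. -/
theorem drop_middle [Finite V] {V0 : Type} {k : ℕ} (hk : 1 ≤ k) {G : SimpleGraph V}
    {A : V → Set ℂ} (hA : ∀ v, IsWideArc (A v)) (hR : Represents k G A) {z y w : V}
    (hz : ∀ v, G.Adj z v → v = y) (hy : ∀ v, G.Adj y v → v = z ∨ v = w)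
    {e : V0 → V} (he : Function.Injective e) (hey : ∀ u, e u ≠ y)
    (hsurj : ∀ v, v ≠ y → ∃ u, e u = v) : Represents k (G.comap e) (fun u => A (e u)) := by
  have h1 : ∀ x : V, ({x} : Set V).ncard ≤ k := fun x => by rw [ncard_singleton]; exact hk
  have lz : ∀ (d : ℂ) (a b : ℝ) (x : V), d ≠ 0 → a • d ∈ A z → b • d ∈ A x → x = z ∨ x = y := by
    intro d a b x hd ha hb
    by_contra hc
    push Not at hc
    obtain ⟨x', c, -, -, h3, h4⟩ := nearest hA hR (h1 y) hd ha hb hc.1 hc.2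
    exact h3 (hz x' h4)
  have ly : ∀ (d : ℂ) (a b : ℝ) (x : V), d ≠ 0 → a • d ∈ A y → b • d ∈ A x → x ≠ y →
      x = z ∨ x = w := by
    intro d a b x hd ha hb hxy
    by_contra hc
    push Not at hc
    obtain ⟨x', c, -, h2, h3, h4⟩ := nearest hA hR (h1 w) hd ha hb hxy hc.2
    rcases hy x' h4 with rfl | rfl
    · rcases lz d c b x hd h2 hb with h | h
      · exact hc.1 h
      · exact hxy h
    · exact h3 rfl
  have hset : ∀ (u v : V0) (p q : ℂ), u ≠ v → p ∈ A (e u) → q ∈ A (e v) →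
      Collinear ℝ ({0, p, q} : Set ℂ) →
      {x | x ≠ e u ∧ x ≠ e v ∧ (segment ℝ p q ∩ A x).Nonempty}.ncard =
        {x | x ≠ u ∧ x ≠ v ∧ (segment ℝ p q ∩ A (e x)).Nonempty}.ncard := by
    intro u v p q huv hp hq hcol
    rw [← ncard_image_of_injective _ he]
    congr 1
    ext x
    constructor
    · rintro ⟨x1, x2, x3⟩
      have hxy : x ≠ y := by
        rintro rfl
        obtain ⟨r, hr, hsph⟩ := (hA (e u)).2
        have hp0 : p ≠ 0 := by
          rintro rfl
          have := hsph hp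
          simp at this
          exact hr.ne this
        obtain ⟨s, rfl⟩ := (collinear_iff_smul hp0).1 hcol
        obtain ⟨q, hq1, hq2⟩ := x3
        have hq1' : q ∈ segment ℝ ((1 : ℝ) • p) (s • p) := by rwa [one_smul]
        obtain ⟨c, -, rfl⟩ := mem_segment_smul.1 hq1'
        have hp' : (1 : ℝ) • p ∈ A (e u) := by rwa [one_smul]
        have hne : e u ≠ e v := fun h => huv (he h)
        rcases ly p c 1 _ hp0 hq2 hp' (hey u) with hu | hu
        · rcases lz p 1 s _ hp0 (hu ▸ hp') hq with h | h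
          · exact hne (hu.trans h.symm)
          · exact hey v h
        · rcases ly p c s _ hp0 hq2 hq (hey v) with hv | hv
          · rcases lz p s 1 _ hp0 (hv ▸ hq) hp' with h | h
            · exact hne (h.trans hv.symm)
            · exact hey u h
          · exact hne (hu.trans hv.symm)
      obtain ⟨x0, rfl⟩ := hsurj x hxy
      exact ⟨x0, ⟨fun h => x1 (by rw [h]), fun h => x2 (by rw [h]), x3⟩, rfl⟩
    · rintro ⟨x0, ⟨x1, x2, x3⟩, rfl⟩
      exact ⟨fun h => x1 (he h), fun h => x2 (he h), x3⟩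
  refine ⟨fun u v huv => hR.1 _ _ (fun h => huv (he h)), fun u v => ?_⟩
  rw [SimpleGraph.comap_adj, hR.2]
  constructor
  · rintro ⟨hne, p, hp, q, hq, hcol, hc⟩
    have huv : u ≠ v := fun h => hne (by rw [h])
    exact ⟨huv, p, hp, q, hq, hcol, by rwa [← hset u v p q huv hp hq hcol]⟩
  · rintro ⟨huv, p, hp, q, hq, hcol, hc⟩
    exact ⟨fun h => huv (he h), p, hp, q, hq, hcol, by rwa [hset u v p q huv hp hq hcol]⟩

/-- A line through the centre meets few arcs of an independent set `S` when all other arcs lie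
in `L`. -/
theorem few_on_line [Finite V] {k : ℕ} {G : SimpleGraph V} {A : V → Set ℂ}
    (hA : ∀ v, IsWideArc (A v)) (hR : Represents k G A) {L S : Set V}
    (hcov : ∀ w, w ∈ S ∨ w ∈ L) (hind : ∀ s ∈ S, ∀ t ∈ S, ¬ G.Adj s t) {d : ℂ} (hd : d ≠ 0) :
    {s ∈ S | ∃ t : ℝ, t • d ∈ A s}.ncard ≤ 2 * L.ncard + 1 := by
  classical
  choose r hr hsph using fun v => (hA v).2
  let P : Finset ℝ := (toFinite L).toFinset.biUnion (fun l => {r l / ‖d‖, -(r l / ‖d‖)})
  have hP : P.card ≤ 2 * L.ncard := by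
    refine Finset.card_biUnion_le.trans ?_
    refine (Finset.sum_le_card_nsmul _ _ 2 (fun l _ => Finset.card_le_two)).trans ?_
    rw [smul_eq_mul, ← ncard_eq_toFinset_card L, mul_comm]
  have hex : ∀ s : V, ∃ t : ℝ, s ∈ {s ∈ S | ∃ t : ℝ, t • d ∈ A s} → t • d ∈ A s := by
    intro s
    by_cases hs : s ∈ {s ∈ S | ∃ t : ℝ, t • d ∈ A s}
    · obtain ⟨t, ht⟩ := hs.2
      exact ⟨t, fun _ => ht⟩
    · exact ⟨0, fun h => absurd h hs⟩
  choose t ht using hex
  let Q : Finset ℝ := P.filter (fun c => ∃ l ∈ L, l ∉ S ∧ c • d ∈ A l)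
  let g : V → ℕ := fun s => (Q.filter (fun c => c < t s)).card
  have hlt : ∀ s ∈ {s ∈ S | ∃ t : ℝ, t • d ∈ A s}, ∀ s' ∈ {s ∈ S | ∃ t : ℝ, t • d ∈ A s},
      s ≠ s' → t s < t s' → g s < g s' := by
    intro s hs s' hs' hne hts
    obtain ⟨w, c, hc, hw, -, hadj⟩ := nearest (X := ∅) hA hR (by simp) hd (ht s hs) (ht s' hs')
      hne.symm (notMem_empty _)
    have hwS : w ∉ S := fun h => hind s hs.1 w h hadj
    have hwL : w ∈ L := (hcov w).resolve_left hwS
    rw [uIcc_of_le hts.le] at hc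
    have hc2 : c < t s' := by
      refine lt_of_le_of_ne hc.2 (fun h => ?_)
      subst h
      exact Set.disjoint_left.1 (hR.1 w s' (fun h => hwS (h ▸ hs'.1))) hw (ht s' hs')
    have hcQ : c ∈ Q := by
      refine Finset.mem_filter.2 ⟨Finset.mem_biUnion.2 ⟨w, by simpa using hwL, ?_⟩, w, hwL, hwS, hw⟩
      simpa using params_sub (hsph w) hd hw
    refine Finset.card_lt_card ⟨fun x hx => ?_, fun h => ?_⟩
    · rw [Finset.mem_filter] at hx ⊢
      exact ⟨hx.1, hx.2.trans hts⟩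
    · have := (Finset.mem_filter.1 (h (Finset.mem_filter.2 ⟨hcQ, hc2⟩))).2
      linarith [hc.1]
  have hinj : InjOn g {s ∈ S | ∃ t : ℝ, t • d ∈ A s} := by
    intro s hs s' hs' e
    by_contra hne
    rcases lt_trichotomy (t s) (t s') with c | c | c
    · exact (hlt s hs s' hs' hne c).ne e
    · exact Set.disjoint_left.1 (hR.1 s s' hne) (ht s hs) (c ▸ ht s' hs')
    · exact (hlt s' hs' s hs (Ne.symm hne) c).ne e.symm
  have h1 : {s ∈ S | ∃ t : ℝ, t • d ∈ A s}.ncard ≤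
      (Finset.range (2 * L.ncard + 1) : Set ℕ).ncard := by
    refine ncard_le_ncard_of_injOn g (fun s _ => ?_) hinj
    have h2 : g s ≤ P.card :=
      (Finset.card_filter_le _ _).trans (Finset.card_filter_le _ _)
    simp only [Finset.coe_range, mem_Iio]
    omega
  rwa [ncard_coe_finset, Finset.card_range] at h1

/-- An arc along which the arcs of `L` keep their places sees at most `2 k + 2` of them. -/
theorem see_few_arcs [Finite V] {k : ℕ} {G : SimpleGraph V} {A : V → Set ℂ}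
    (hA : ∀ v, IsWideArc (A v)) (hR : Represents k G A) {L : Set V} {s : V}
    (hadj : ∀ l ∈ L, G.Adj s l)
    (hconst : ∀ l ∈ L, ∀ (c : ℝ), ∀ p ∈ A s, ∀ p' ∈ A s, c • p ∈ A l → c • p' ∈ A l) :
    L.ncard ≤ 2 * k + 2 := by
  obtain ⟨r, hr, hsph⟩ := (hA s).2
  have hne : ∀ p ∈ A s, p ≠ 0 := by
    rintro p hp rfl
    have := hsph hp
    simp at this
    exact hr.ne this
  have hex : ∀ l : V, ∃ (p : ℂ) (c : ℝ), l ∈ L → p ∈ A s ∧ c • p ∈ A l ∧
      {w | w ≠ s ∧ w ≠ l ∧ (segment ℝ p (c • p) ∩ A w).Nonempty}.ncard ≤ k := by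
    intro l
    by_cases hl : l ∈ L
    · obtain ⟨-, p, hp, q, hq, hcol, hc⟩ := (hR.2 s l).1 (hadj l hl)
      obtain ⟨c, rfl⟩ := (collinear_iff_smul (hne p hp)).1 hcol
      exact ⟨p, c, fun _ => ⟨hp, hq, hc⟩⟩
    · exact ⟨0, 0, fun h => absurd h hl⟩
  choose p c hpc using hex
  have key : ∀ (T : Set V) (m : V), T ⊆ L → m ∈ T → (∀ l ∈ T, c l ∈ uIcc 1 (c m)) →
      T.ncard ≤ k + 1 := by
    intro T m hT hm hc
    obtain ⟨h1, h2, h3⟩ := hpc m (hT hm)
    have : T ⊆ insert m {w | w ≠ s ∧ w ≠ m ∧ (segment ℝ (p m) (c m • p m) ∩ A w).Nonempty} := by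
      intro l hl
      by_cases hlm : l = m
      · exact Or.inl hlm
      · obtain ⟨h4, h5, -⟩ := hpc l (hT hl)
        refine Or.inr ⟨(hadj l (hT hl)).ne.symm, hlm, c l • p m, ?_,
          hconst l (hT hl) _ _ h4 _ h1 h5⟩
        have : c l • p m ∈ segment ℝ ((1 : ℝ) • p m) (c m • p m) :=
          mem_segment_smul.2 ⟨c l, hc l hl, rfl⟩
        rwa [one_smul] at this
    exact (ncard_le_ncard this).trans ((ncard_insert_le _ _).trans (by omega))
  have hup : {l ∈ L | 1 ≤ c l}.ncard ≤ k + 1 := by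
    rcases ({l ∈ L | 1 ≤ c l} : Set V).eq_empty_or_nonempty with he | hne
    · rw [he]; simp
    obtain ⟨m, hm, hmax⟩ := Set.exists_max_image _ c (toFinite _) hne
    exact key _ m (fun l hl => hl.1) hm (fun l hl => mem_uIcc.2 (Or.inl ⟨hl.2, hmax l hl⟩))
  have hdown : {l ∈ L | c l ≤ 1}.ncard ≤ k + 1 := by
    rcases ({l ∈ L | c l ≤ 1} : Set V).eq_empty_or_nonempty with he | hne
    · rw [he]; simp
    obtain ⟨m, hm, hmin⟩ := Set.exists_min_image _ c (toFinite _) hne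
    exact key _ m (fun l hl => hl.1) hm (fun l hl => mem_uIcc.2 (Or.inr ⟨hmin l hl, hl.2⟩))
  have hL : L ⊆ {l ∈ L | 1 ≤ c l} ∪ {l ∈ L | c l ≤ 1} := by
    intro l hl
    rcases le_total 1 (c l) with e | e
    · exact Or.inl ⟨hl, e⟩
    · exact Or.inr ⟨hl, e⟩
  have := (ncard_le_ncard hL).trans (ncard_union_le _ _)
  omega

/-- A connected subset `C` of a circle has at most three points through which a connected subset
of the circle can leave it. -/
theorem exits {C : Set ℂ} {r : ℝ} (hr : 0 < r) (hC : IsPreconnected C)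
    (hCs : C ⊆ Metric.sphere 0 r) :
    ∃ F : Finset ℂ, F.card ≤ 3 ∧ (∀ e ∈ F, e ≠ 0) ∧ ∀ B : Set ℂ, IsPreconnected B →
      B ⊆ Metric.sphere 0 r → ∀ p ∈ B, ∀ p' ∈ B, p ∈ C → p' ∉ C → ∃ e ∈ F, e ∈ B := by
  classical
  by_cases hfull : Metric.sphere (0 : ℂ) r ⊆ C
  · exact ⟨∅, by simp, by simp, fun B _ hB p _ p' hp' _ h => absurd (hfull (hB hp')) h⟩
  obtain ⟨P, hPs, hPC⟩ := not_subset.1 hfull
  have hPn : ‖P‖ = r := by simpa using hPs
  have hP0 : P ≠ 0 := by rw [← norm_pos_iff, hPn]; exact hr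
  let φ : ℂ → ℝ := fun q => Complex.arg (-q / P)
  have hn1 : ∀ q ∈ Metric.sphere (0 : ℂ) r, ‖-q / P‖ = 1 := by
    intro q hq
    have : ‖q‖ = r := by simpa using hq
    rw [norm_div, norm_neg, this, hPn, div_self hr.ne']
  have hrep : ∀ q ∈ Metric.sphere (0 : ℂ) r, q = -P * Complex.exp (φ q * Complex.I) := by
    intro q hq
    have h1 := Complex.norm_mul_exp_arg_mul_I (-q / P)
    rw [hn1 q hq] at h1
    simp only [Complex.ofReal_one, one_mul] at h1
    simp only [φ]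
    rw [h1]
    field_simp
  have hcont : ∀ q ∈ Metric.sphere (0 : ℂ) r, q ≠ P → ContinuousAt φ q := by
    intro q hq hqP
    refine ContinuousAt.comp (f := fun q : ℂ => -q / P) (Complex.continuousAt_arg ?_)
      (by fun_prop)
    rw [Complex.mem_slitPlane_iff_arg]
    refine ⟨fun h => hqP ?_, fun h => ?_⟩
    · have h2 := hrep q hq
      have h3 : φ q = Real.pi := h
      rw [h3, Complex.exp_pi_mul_I] at h2
      rw [h2]; ring
    · have := hn1 q hq
      rw [h] at this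
      simp at this
  have hJ : (φ '' C).OrdConnected := by
    refine (hC.image φ (fun q hq => ?_)).ordConnected
    exact (hcont q (hCs hq) (fun h => hPC (h ▸ hq))).continuousWithinAt
  have hbdd1 : BddBelow (φ '' C) := ⟨-Real.pi, by
    rintro _ ⟨q, -, rfl⟩; exact (Complex.neg_pi_lt_arg _).le⟩
  have hbdd2 : BddAbove (φ '' C) := ⟨Real.pi, by
    rintro _ ⟨q, -, rfl⟩; exact Complex.arg_le_pi _⟩
  let α : ℝ := sInf (φ '' C)
  let β : ℝ := sSup (φ '' C)
  refine ⟨{P, -P * Complex.exp (α * Complex.I), -P * Complex.exp (β * Complex.I)},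
    Finset.card_le_three, ?_, ?_⟩
  · intro e he
    simp only [Finset.mem_insert, Finset.mem_singleton] at he
    rcases he with rfl | rfl | rfl
    · exact hP0
    · exact mul_ne_zero (neg_ne_zero.2 hP0) (Complex.exp_ne_zero _)
    · exact mul_ne_zero (neg_ne_zero.2 hP0) (Complex.exp_ne_zero _)
  intro B hB hBs p hp p' hp' hpC hp'C
  by_cases hPB : P ∈ B
  · exact ⟨P, by simp, hPB⟩
  have hK : (φ '' B).OrdConnected := by
    refine (hB.image φ (fun q hq => ?_)).ordConnected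
    exact (hcont q (hBs hq) (fun h => hPB (h ▸ hq))).continuousWithinAt
  have hback : ∀ θ ∈ φ '' B, -P * Complex.exp (θ * Complex.I) ∈ B := by
    rintro _ ⟨q, hq, rfl⟩
    rw [← hrep q (hBs hq)]
    exact hq
  have hnot : φ p' ∉ φ '' C := by
    rintro ⟨q, hq, e⟩
    apply hp'C
    rw [hrep p' (hBs hp'), ← e, ← hrep q (hCs hq)]
    exact hq
  have hpJ : φ p ∈ φ '' C := ⟨p, hpC, rfl⟩
  rcases le_total (φ p) (φ p') with hle | hle
  · refine ⟨_, by simp, hback β (hK.out ⟨p, hp, rfl⟩ ⟨p', hp', rfl⟩ ⟨le_csSup hbdd2 hpJ, ?_⟩)⟩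
    refine csSup_le ⟨_, hpJ⟩ (fun y hy => ?_)
    by_contra hc
    exact hnot (hJ.out hpJ hy ⟨hle, (not_le.1 hc).le⟩)
  · refine ⟨_, by simp, hback α (hK.out ⟨p', hp', rfl⟩ ⟨p, hp, rfl⟩ ⟨?_, csInf_le hbdd1 hpJ⟩)⟩
    refine le_csInf ⟨_, hpJ⟩ (fun y hy => ?_)
    by_contra hc
    exact hnot (hJ.out hy hpJ ⟨(not_le.1 hc).le, hle⟩)

/-- A large independent set completely joined to more than `2 k + 2` vertices, and nothing else,
has no `k`-visibility representation by arcs. -/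
theorem obstruction_arcs [Finite V] {k : ℕ} {G : SimpleGraph V} {A : V → Set ℂ}
    (hA : ∀ v, IsWideArc (A v)) (hR : Represents k G A) {L S : Set V}
    (hcov : ∀ w, w ∈ S ∨ w ∈ L) (hind : ∀ s ∈ S, ∀ t ∈ S, ¬ G.Adj s t)
    (hadj : ∀ s ∈ S, ∀ l ∈ L, G.Adj s l) (hL : 2 * k + 2 < L.ncard) :
    S.ncard ≤ L.ncard * (3 * (2 * L.ncard + 1)) := by
  classical
  choose r hr hsph using fun v => (hA v).2
  choose F hF3 hF0 hF using fun v => exits (hr v) (hA v).1.isPreconnected (hsph v)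
  let T : ℂ → Set V := fun d => {s ∈ S | ∃ t : ℝ, t • d ∈ A s}
  have hS : S ⊆ ⋃ l ∈ (toFinite L).toFinset, ⋃ e ∈ F l, T e := by
    intro s hs
    have hnc : ¬ ∀ l ∈ L, ∀ (c : ℝ), ∀ p ∈ A s, ∀ p' ∈ A s, c • p ∈ A l → c • p' ∈ A l := by
      intro h
      have := see_few_arcs hA hR (hadj s hs) h
      omega
    push Not at hnc
    obtain ⟨l, hl, c, p, hp, p', hp', h1, h2⟩ := hnc
    have hn : ∀ q ∈ A s, ‖q‖ = r s := fun q hq => by simpa using hsph s hq
    have hcp : ‖c • p‖ = r l := by simpa using hsph l h1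
    have hc0 : c ≠ 0 := by
      rintro rfl
      simp at hcp
      exact (hr l).ne hcp
    obtain ⟨e, he, q, hq, rfl⟩ := hF l ((fun q => c • q) '' A s)
      ((hA s).1.isPreconnected.image _ (by fun_prop)) (by
        rintro _ ⟨q, hq, rfl⟩
        rw [norm_smul, hn p hp] at hcp
        simp only [mem_sphere_iff_norm, sub_zero]
        rw [norm_smul, hn q hq, hcp]) _ ⟨p, hp, rfl⟩ _ ⟨p', hp', rfl⟩ h1 h2
    refine mem_iUnion₂.2 ⟨l, by simpa using hl, mem_iUnion₂.2 ⟨_, he, hs, c⁻¹, ?_⟩⟩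
    simp only [smul_smul, inv_mul_cancel₀ hc0, one_smul]
    exact hq
  refine (ncard_le_ncard hS).trans ?_
  refine (Finset.set_ncard_biUnion_le _ _).trans ?_
  have : ∀ l ∈ (toFinite L).toFinset, (⋃ e ∈ F l, T e).ncard ≤ 3 * (2 * L.ncard + 1) := by
    intro l _
    refine (Finset.set_ncard_biUnion_le _ _).trans ?_
    refine (Finset.sum_le_card_nsmul _ _ (2 * L.ncard + 1)
      (fun e he => few_on_line hA hR hcov hind (hF0 l e he))).trans ?_
    rw [smul_eq_mul]
    exact Nat.mul_le_mul_right _ (hF3 l)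
  refine (Finset.sum_le_card_nsmul _ _ _ this).trans ?_
  rw [smul_eq_mul, ← ncard_eq_toFinset_card L]

end Pool.Agent.Lib.MP_73fdb2_co
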