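import Mathlib
import Pool.Agent.Lib.MP_73fdb2_co.H96Line

set_option autoImplicit false

/-! Two families of connected witnesses. -/

namespace Pool.Agent.Lib.MP_73fdb2_co

open Set

theorem conn_lt {a b : ℕ} (hab : a < b) : ∃ (V : Type) (_ : Finite V) (G : SimpleGraph V),
    G.Connected ∧ (∃ A : V → Set ℂ, (∀ v, IsClosedArc (A v)) ∧ Represents a G A) ∧
    ¬ ∃ A : V → Set ℂ, (∀ v, IsWideArc (A v)) ∧ Represents b G A := by
  let V := Fin (a + 6)
  let l : V → ℝ := fun m => if m.1 = a + 4 then 5 else if m.1 = a + 5 then 7 / 2 else 0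
  let r : V → ℝ := fun m => if m.1 = a + 4 then 6 else if m.1 = a + 5 then 11 / 2 else
    if m.1 = 0 then 4 else if m.1 = a + 3 then 3 else 1
  let h : V → ℝ := fun m => (m.1 : ℝ) + 1
  have hinj : ∀ u v : V, h u = h v → u = v := by
    intro u v e
    have : (u.1 : ℝ) = v.1 := by simpa [h] using e
    exact Fin.ext (by exact_mod_cast this)
  have hok : BarOK (fun v => Icc (l v) (r v)) h := fun u v _ _ _ e => hinj u v e
  have hl0 : ∀ v, 0 ≤ l v := by intro v; simp only [l]; split_ifs <;> norm_num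
  have hr4 : ∀ v : V, v.1 < a + 4 → l v = 0 ∧ 1 ≤ r v ∧ r v ≤ 4 := by
    intro v hv
    have h4 : v.1 ≠ a + 4 := by omega
    have h5 : v.1 ≠ a + 5 := by omega
    simp only [l, r, h4, h5, if_false]; split_ifs <;> norm_num
  have hr3 : ∀ v : V, v.1 < a + 4 → v.1 ≠ 0 → r v ≤ 3 := by
    intro v hv h0
    have h4 : v.1 ≠ a + 4 := by omega
    have h5 : v.1 ≠ a + 5 := by omega
    simp only [r, h4, h5, h0, if_false]; split_ifs <;> norm_num
  have hr1 : ∀ v : V, v.1 < a + 3 → v.1 ≠ 0 → r v = 1 := by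
    intro v hv h0
    have h3 : v.1 ≠ a + 3 := by omega
    have h4 : v.1 ≠ a + 4 := by omega
    have h5 : v.1 ≠ a + 5 := by omega
    simp only [r, h3, h4, h5, h0, if_false]
  let z : V := ⟨a + 4, by omega⟩
  let y : V := ⟨a + 5, by omega⟩
  let v0 : V := ⟨0, by omega⟩
  let v1 : V := ⟨1, by omega⟩
  let v2 : V := ⟨a + 2, by omega⟩
  let v3 : V := ⟨a + 3, by omega⟩
  have lz : l z = 5 := by simp [l, z]
  have rz : r z = 6 := by simp [r, z]
  have ly : l y = 7 / 2 := by simp [l, y]
  have ry : r y = 11 / 2 := by simp [r, y]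
  have l0 : l v0 = 0 := by simp [l, v0]
  have r0 : r v0 = 4 := by simp [r, v0]
  have l3 : l v3 = 0 := by simp [l, v3]
  have r3 : r v3 = 3 := by simp [r, v3]
  have hbetween : ∀ (u v w : V) (x : ℝ), u.1 < v.1 →
      w ∈ Blk (fun v => Icc (l v) (r v)) h u v x → u.1 < w.1 ∧ w.1 < v.1 := by
    rintro u v w x huv ⟨w1, w2, -, w4⟩
    have : (u.1 : ℝ) < v.1 := by exact_mod_cast huv
    rw [uIcc_of_le (by simp only [h]; linarith)] at w4
    have e1 : (u.1 : ℝ) ≤ w.1 := by simpa [h] using w4.1
    have e2 : (w.1 : ℝ) ≤ v.1 := by simpa [h] using w4.2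
    have e3 : u.1 ≤ w.1 := by exact_mod_cast e1
    have e4 : w.1 ≤ v.1 := by exact_mod_cast e2
    have e5 : w.1 ≠ u.1 := fun e => w1 (Fin.ext e)
    have e6 : w.1 ≠ v.1 := fun e => w2 (Fin.ext e)
    omega
  have near : ∀ u v : V, u.1 < v.1 → v.1 ≤ u.1 + a + 1 → v.1 < a + 4 →
      BarAdj a (fun v => Icc (l v) (r v)) h u v := by
    intro u v h1 h2 h3
    obtain ⟨u1, u2, -⟩ := hr4 u (by omega)
    obtain ⟨v1, v2, -⟩ := hr4 v (by omega)
    refine ⟨fun e => by rw [e] at h1; omega, 0, ⟨u1.le, by linarith⟩, ⟨v1.le, by linarith⟩, ?_⟩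
    have : (Blk (fun v => Icc (l v) (r v)) h u v 0).ncard ≤ (Finset.Ioo u.1 v.1 : Set ℕ).ncard :=
      ncard_le_ncard_of_injOn (fun w => w.1)
        (fun w hw => by simpa using hbetween u v w 0 h1 hw) (Fin.val_injective.injOn)
    rw [ncard_coe_finset, Nat.card_Ioo] at this
    omega
  have far : ∀ u v : V, v.1 = u.1 + a + 2 → v.1 < a + 4 →
      ¬ BarAdj a (fun v => Icc (l v) (r v)) h u v := by
    rintro u v h1 h3 ⟨-, x, hu, hv, hc⟩
    have hx0 : 0 ≤ x := (hl0 u).trans hu.1
    have hx1 : x ≤ 1 := by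
      by_cases h0 : u.1 = 0
      · have := hr1 v (by omega) (by omega)
        linarith [hv.2]
      · by_cases h2 : u.1 < a + 3
        · have := hr1 u h2 h0
          linarith [hu.2]
        · omega
    have hsub : (Finset.Ioo u.1 v.1 : Set ℕ) ⊆
        (fun w : V => w.1) '' Blk (fun v => Icc (l v) (r v)) h u v x := by
      intro m hm
      have hm' : u.1 < m ∧ m < v.1 := by simpa using hm
      obtain ⟨w1, w2, -⟩ := hr4 ⟨m, by omega⟩ (by simp only; omega)
      refine ⟨⟨m, by omega⟩, ⟨fun e => ?_, fun e => ?_, ⟨by linarith, by linarith⟩, ?_⟩, rfl⟩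
      · have := congrArg Fin.val e
        simp only at this; omega
      · have := congrArg Fin.val e
        simp only at this; omega
      · have e1 : (u.1 : ℝ) < m := by exact_mod_cast hm'.1
        have e2 : (m : ℝ) < v.1 := by exact_mod_cast hm'.2
        exact mem_uIcc.2 (Or.inl ⟨by simp only [h]; linarith, by simp only [h]; linarith⟩)
    have h4 := (ncard_le_ncard hsub).trans (ncard_image_le (toFinite _))
    rw [ncard_coe_finset, Nat.card_Ioo] at h4
    omega
  have long : BarAdj a (fun v => Icc (l v) (r v)) h v0 v3 := by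
    refine ⟨fun e => by have := congrArg Fin.val e; simp [v0, v3] at this, 2,
      ⟨by linarith, by linarith⟩, ⟨by linarith, by linarith⟩, ?_⟩
    have : Blk (fun v => Icc (l v) (r v)) h v0 v3 2 = ∅ := by
      rw [eq_empty_iff_forall_notMem]
      intro w hw
      obtain ⟨e1, e2⟩ := hbetween v0 v3 w 2 (by simp [v0, v3]) hw
      simp only [v0, v3] at e1 e2
      have := hr1 w (by omega) (by omega)
      linarith [hw.2.2.1.2]
    rw [this]; simp
  have zy : BarAdj a (fun v => Icc (l v) (r v)) h z y := by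
    refine ⟨fun e => by have := congrArg Fin.val e; simp [z, y] at this, 5,
      ⟨by linarith, by linarith⟩, ⟨by linarith, by linarith⟩, ?_⟩
    have : Blk (fun v => Icc (l v) (r v)) h z y 5 = ∅ := by
      rw [eq_empty_iff_forall_notMem]
      intro w hw
      obtain ⟨e1, e2⟩ := hbetween z y w 5 (by simp [z, y]) hw
      simp only [z, y] at e1 e2
      omega
    rw [this]; simp
  have v0y : BarAdj a (fun v => Icc (l v) (r v)) h v0 y := by
    refine ⟨fun e => by have := congrArg Fin.val e; simp [v0, y] at this, 4,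
      ⟨by linarith, by linarith⟩, ⟨by linarith, by linarith⟩, ?_⟩
    have : Blk (fun v => Icc (l v) (r v)) h v0 y 4 = ∅ := by
      rw [eq_empty_iff_forall_notMem]
      intro w hw
      obtain ⟨e1, e2⟩ := hbetween v0 y w 4 (by simp [v0, y]) hw
      simp only [v0, y] at e1 e2
      by_cases h4 : w.1 = a + 4
      · have : w = z := Fin.ext h4
        have h5 := hw.2.2.1.1
        rw [this] at h5
        linarith
      · have := hr3 w (by omega) (by omega)
        linarith [hw.2.2.1.2]
    rw [this]; simp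
  have hz : ∀ v, (barGraph a (fun v => Icc (l v) (r v)) h).Adj z v → v = y := by
    rintro v ⟨hne, x, h1, h2, -⟩
    by_contra hvy
    have e4 : v.1 ≠ a + 4 := fun e => hne (Fin.ext e.symm)
    have e5 : v.1 ≠ a + 5 := fun e => hvy (Fin.ext e)
    have := v.2
    linarith [h1.1, h2.2, (hr4 v (by omega)).2.2]
  have hy : ∀ v, (barGraph a (fun v => Icc (l v) (r v)) h).Adj y v → v = z ∨ v = v0 := by
    rintro v ⟨hne, x, h1, h2, -⟩
    by_contra hc
    push Not at hc
    have e4 : v.1 ≠ a + 4 := fun e => hc.1 (Fin.ext e)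
    have e5 : v.1 ≠ a + 5 := fun e => hne (Fin.ext e.symm)
    have e0 : v.1 ≠ 0 := fun e => hc.2 (Fin.ext e)
    have := v.2
    linarith [h1.1, h2.2, hr3 v (by omega) e0]
  refine ⟨V, inferInstance, barGraph a (fun v => Icc (l v) (r v)) h, ?_,
    bars_to_arcs a (R := 6) (by norm_num) hl0 ?_ ?_ ?_ hok, ?_⟩
  · have hreach : ∀ m : ℕ, ∀ hm : m < a + 4,
        (barGraph a (fun v => Icc (l v) (r v)) h).Reachable v0 ⟨m, by omega⟩ := by
      intro m
      induction m with
      | zero => intro _; exact SimpleGraph.Reachable.refl _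
      | succ m ih =>
        intro hm
        refine (ih (by omega)).trans (SimpleGraph.Adj.reachable ?_)
        exact near _ _ (by simp) (by simp only; omega) hm
    have hall : ∀ v, (barGraph a (fun v => Icc (l v) (r v)) h).Reachable v0 v := by
      intro v
      have hy' : (barGraph a (fun v => Icc (l v) (r v)) h).Reachable v0 y :=
        SimpleGraph.Adj.reachable v0y
      by_cases h4 : v.1 = a + 4
      · rw [show v = z from Fin.ext h4]
        exact hy'.trans (SimpleGraph.Adj.reachable zy.symm)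
      · by_cases h5 : v.1 = a + 5
        · rw [show v = y from Fin.ext h5]
          exact hy'
        · have := v.2
          exact hreach v.1 (by omega)
    have : Nonempty V := ⟨v0⟩
    exact ⟨fun u v => (hall u).symm.trans (hall v)⟩
  · intro v; simp only [l, r]; split_ifs <;> norm_num
  · intro v; simp only [r]; split_ifs <;> norm_num
  · intro v; simp only [h]; positivity
  rintro ⟨A, hA, hR⟩
  let e : Fin (a + 5) → V := Fin.castSucc
  have hR0 := drop_middle (by omega) hA hR hz hy (e := e) (Fin.castSucc_injective _)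
    (fun u he => by have := congrArg Fin.val he; have h2 := u.2; simp [e, y] at this; omega)
    (fun v hv => by
      have h1 : v.1 ≠ a + 5 := fun e => hv (Fin.ext e)
      have h2 := v.2
      exact ⟨⟨v.1, by omega⟩, rfl⟩)
  let z0 : Fin (a + 5) := ⟨a + 4, by omega⟩
  have hz0 : ∀ v, ¬ ((barGraph a (fun v => Icc (l v) (r v)) h).comap e).Adj z0 v := by
    intro v hv
    have h1 := congrArg Fin.val (hz _ hv)
    have h2 := v.2
    simp [e, y] at h1
    omega
  obtain ⟨I', h', hIz, hI, hok', hadj⟩ := arcs_to_bars (fun v => hA (e v)) hR0 hz0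
  refine obstruction_C4 (v0 := ⟨0, by omega⟩) (v1 := ⟨1, by omega⟩) (v2 := ⟨a + 2, by omega⟩)
    (v3 := ⟨a + 3, by omega⟩) hIz hI hok'
    (by simp only [Nat.card_eq_fintype_card, Fintype.card_fin]; omega)
    ((hadj _ _).1 (near v0 v1 (by simp [v0, v1]) (by simp [v0, v1]) (by simp [v1])))
    ((hadj _ _).1 (near v1 v2 (by simp [v1, v2]) (by simp only [v1, v2]; omega) (by simp [v2])))
    ((hadj _ _).1 (near v2 v3 (by simp [v2, v3]) (by simp only [v2, v3]; omega) (by simp [v3])))
    ((hadj _ _).1 long.symm)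
    (fun e => by have := congrArg Fin.val e; simp at this)
    (fun e => by have := congrArg Fin.val e; simp at this)
    (fun e => far v0 v2 (by simp [v0, v2]) (by simp [v2]) ((hadj _ _).2 e))
    (fun e => far v1 v3 (by simp only [v1, v3]; omega) (by simp [v3]) ((hadj _ _).2 e))

theorem conn_gt {a b : ℕ} (hab : b < a) : ∃ (V : Type) (_ : Finite V) (G : SimpleGraph V),
    G.Connected ∧ (∃ A : V → Set ℂ, (∀ v, IsClosedArc (A v)) ∧ Represents a G A) ∧
    ¬ ∃ A : V → Set ℂ, (∀ v, IsWideArc (A v)) ∧ Represents b G A := by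
  obtain ⟨N, hN⟩ : ∃ N : ℕ, N = (2 * a + 2) * (3 * (2 * (2 * a + 2) + 1)) + 1 := ⟨_, rfl⟩
  let V := Fin N ⊕ (Bool × Fin (a + 1))
  let l : V → ℝ := Sum.elim (fun s => 2 * (s.1 : ℝ)) (fun _ => 0)
  let r : V → ℝ := Sum.elim (fun s => 2 * (s.1 : ℝ) + 1) (fun _ => 2 * N)
  let h : V → ℝ := Sum.elim (fun _ => (a : ℝ) + 2)
    (fun p => if p.1 then (a : ℝ) + 3 + p.2.1 else (p.2.1 : ℝ) + 1)
  have hNpos : 0 < N := by omega
  have hN0 : (0 : ℝ) < N := by exact_mod_cast hNpos
  have hs : ∀ s : Fin N, (s.1 : ℝ) + 1 ≤ N := fun s => by exact_mod_cast s.2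
  have hm : ∀ m : Fin (a + 1), (m.1 : ℝ) ≤ a := fun m => by exact_mod_cast Nat.lt_succ_iff.1 m.2
  have hm0 : ∀ m : Fin (a + 1), (0 : ℝ) ≤ m.1 := fun m => Nat.cast_nonneg _
  have hr2 : ∀ v : V, r v ≤ 2 * N := by
    rintro (s | p)
    · simp only [r, Sum.elim_inl]; linarith [hs s]
    · simp [r]
  have hdisj : ∀ (s t : Fin N) (x : ℝ), x ∈ Icc (l (Sum.inl s)) (r (Sum.inl s)) →
      x ∈ Icc (l (Sum.inl t)) (r (Sum.inl t)) → s = t := by
    intro s t x h1 h2
    simp only [l, r, Sum.elim_inl, mem_Icc] at h1 h2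
    have e1 : ((2 * s.1 : ℕ) : ℝ) ≤ (2 * t.1 + 1 : ℕ) := by push_cast; linarith [h1.1, h2.2]
    have e2 : ((2 * t.1 : ℕ) : ℝ) ≤ (2 * s.1 + 1 : ℕ) := by push_cast; linarith [h1.2, h2.1]
    have e3 := Nat.cast_le.1 e1
    have e4 := Nat.cast_le.1 e2
    exact Fin.ext (by omega)
  have hside : ∀ p : Bool × Fin (a + 1), (p.1 = true → (a : ℝ) + 2 < h (Sum.inr p)) ∧
      (p.1 = false → h (Sum.inr p) < (a : ℝ) + 2) := by
    rintro ⟨β, m⟩
    constructor
    · rintro rfl
      simp only [h, Sum.elim_inr, if_true]; linarith [hm0 m]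
    · rintro rfl
      simp only [h, Sum.elim_inr]; simp; linarith [hm m]
  have hok : BarOK (fun v => Icc (l v) (r v)) h := by
    rintro (s | ⟨β, m⟩) v x h1 h2 e
    · rcases v with t | ⟨γ, n⟩
      · rw [hdisj s t x h1 h2]
      · exfalso
        have e' : (a : ℝ) + 2 = h (Sum.inr (γ, n)) := e
        cases γ
        · linarith [(hside (false, n)).2 rfl]
        · linarith [(hside (true, n)).1 rfl]
    · rcases v with t | ⟨γ, n⟩
      · exfalso
        have e' : h (Sum.inr (β, m)) = (a : ℝ) + 2 := e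
        cases β
        · linarith [(hside (false, m)).2 rfl]
        · linarith [(hside (true, m)).1 rfl]
      · cases β <;> cases γ
        · have : (m.1 : ℝ) = n.1 := by simpa [h] using e
          rw [Fin.ext (Nat.cast_injective this)]
        · linarith [(hside (false, m)).2 rfl, (hside (true, n)).1 rfl]
        · linarith [(hside (true, m)).1 rfl, (hside (false, n)).2 rfl]
        · have : (m.1 : ℝ) = n.1 := by simpa [h] using e
          rw [Fin.ext (Nat.cast_injective this)]
  have hSL : ∀ (s : Fin N) (p : Bool × Fin (a + 1)),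
      (barGraph a (fun v => Icc (l v) (r v)) h).Adj (Sum.inl s) (Sum.inr p) := by
    rintro s ⟨β, m⟩
    refine ⟨fun e => Sum.inl_ne_inr e, 2 * s.1, ?_, ?_, ?_⟩
    · simp [l, r]
    · simp only [l, r, Sum.elim_inr]
      exact ⟨by positivity, by linarith [hs s]⟩
    · have hsub : Blk (fun v => Icc (l v) (r v)) h (Sum.inl s) (Sum.inr (β, m))
          (2 * s.1) ⊆ (fun n => Sum.inr (β, n)) '' ({m}ᶜ : Set (Fin (a + 1))) := by
        rintro (t | ⟨γ, n⟩) ⟨w1, w2, w3, w4⟩
        · exfalso
          exact w1 (by rw [hdisj t s _ w3 (by simp [l, r])])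
        · have hβ : γ = β := by
            have e0 : h (Sum.inl s) = (a : ℝ) + 2 := rfl
            rw [e0, mem_uIcc] at w4
            cases β <;> cases γ
            · rfl
            · exfalso
              have := (hside (false, m)).2 rfl
              have := (hside (true, n)).1 rfl
              rcases w4 with w4 | w4 <;> linarith [w4.1, w4.2]
            · exfalso
              have := (hside (true, m)).1 rfl
              have := (hside (false, n)).2 rfl
              rcases w4 with w4 | w4 <;> linarith [w4.1, w4.2]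
            · rfl
          subst hβ
          exact ⟨n, fun e => w2 (by rw [mem_singleton_iff.1 e]), rfl⟩
      refine (ncard_le_ncard hsub).trans ((ncard_image_le (toFinite _)).trans ?_)
      have := ncard_add_ncard_compl ({m} : Set (Fin (a + 1)))
      rw [ncard_singleton, Nat.card_eq_fintype_card, Fintype.card_fin] at this
      omega
  refine ⟨V, inferInstance, barGraph a (fun v => Icc (l v) (r v)) h, ?_,
    bars_to_arcs a (R := 2 * N) (by positivity) ?_ ?_ hr2 ?_ hok, ?_⟩
  · have hall : ∀ v, (barGraph a (fun v => Icc (l v) (r v)) h).Reachable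
        (Sum.inr (true, 0)) v := by
      rintro (s | p)
      · exact (hSL s _).symm.reachable
      · exact (hSL ⟨0, hNpos⟩ _).symm.reachable.trans (hSL ⟨0, hNpos⟩ p).reachable
    have : Nonempty V := ⟨Sum.inr (true, 0)⟩
    exact ⟨fun u v => (hall u).symm.trans (hall v)⟩
  · rintro (s | p)
    · simp only [l, Sum.elim_inl]; positivity
    · simp [l]
  · rintro (s | p)
    · simp only [l, r, Sum.elim_inl]; linarith
    · simp only [l, r, Sum.elim_inr]; linarith
  · rintro (s | ⟨β, m⟩)
    · simp only [h, Sum.elim_inl]; positivity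
    · simp only [h, Sum.elim_inr]; split_ifs <;> positivity
  rintro ⟨A, hA, hR⟩
  let L : Set V := range Sum.inr
  let S : Set V := range Sum.inl
  have hL : L.ncard = 2 * a + 2 := by
    rw [ncard_range_of_injective Sum.inr_injective]
    simp; ring
  have hS : S.ncard = N := by
    rw [ncard_range_of_injective Sum.inl_injective]
    simp
  have key := obstruction_arcs (L := L) (S := S) hA hR ?_ ?_ ?_ (by omega)
  · rw [hL, hS] at key
    omega
  · rintro (s | p)
    · exact Or.inl ⟨s, rfl⟩
    · exact Or.inr ⟨p, rfl⟩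
  · rintro _ ⟨s, rfl⟩ _ ⟨t, rfl⟩ ⟨hne, x, h1, h2, -⟩
    exact hne (by rw [hdisj s t x h1 h2])
  · rintro _ ⟨s, rfl⟩ _ ⟨p, rfl⟩
    exact hSL s p

end Pool.Agent.Lib.MP_73fdb2_co
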